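import Mathlib
import Pool.Agent.Y530.BB.Real

/-!
# Bundles of three bars

The points of the bodies have three colours. A bundle joins two different bodies by three bars
whose ends in each of the two bodies have three different colours.
-/

set_option autoImplicit false

namespace Pool.Agent.Y530.TB

open Finset Module Pool.Agent.W824.BJ Pool.Agent.Y530.BB

variable {V B : Type}

open Classical in
/-- the three bars from `f k` to `g k` -/
noncomputable def br3 (f g : Fin 3 → V) : Finset (Sym2 V) := univ.image fun k => s(f k, g k)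

/-- `e` is a bundle between the bodies `b` and `b'`: it consists of three bars, whose ends in each
of the bodies have the three different colours -/
def IsBd (β : V → B) (χ : V → Fin 3) (b b' : B) (e : Finset (Sym2 V)) : Prop :=
  ∃ f g : Fin 3 → V, (∀ k, χ (f k) = k) ∧ Function.Injective (fun k => χ (g k)) ∧
    (∀ k, β (f k) = b) ∧ (∀ k, β (g k) = b') ∧ e = br3 f g

/-- a family of pairwise disjoint bundles between different bodies -/
def Bun (β : V → B) (χ : V → Fin 3) (Q : Finset (Finset (Sym2 V))) : Prop :=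
  (∀ e ∈ Q, ∃ b b', b ≠ b' ∧ IsBd β χ b b' e) ∧ ∀ e ∈ Q, ∀ e' ∈ Q, e ≠ e' → Disjoint e e'

open Classical in
/-- all bars of a family of bundles -/
noncomputable def bs (Q : Finset (Finset (Sym2 V))) : Finset (Sym2 V) := Q.biUnion id

open Classical in
/-- the bundles inside a set of bodies -/
noncomputable def qi (β : V → B) (Q : Finset (Finset (Sym2 V))) (C : Finset B) :
    Finset (Finset (Sym2 V)) := Q.filter fun e => ∀ x ∈ e, ∀ v ∈ x, β v ∈ C

/-- each nonempty set of bodies spans at most `2 |C| - 2` bundles -/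
def Sp2 (β : V → B) (Q : Finset (Finset (Sym2 V))) : Prop :=
  ∀ C : Finset B, C.Nonempty → (qi β Q C).card + 2 ≤ 2 * C.card

/-- the theorem for systems of `N` bundles -/
def PQ (N : ℕ) : Prop := ∀ (V B : Type) [Fintype V] [Fintype B] (β : V → B) (χ : V → Fin 3)
  (Q : Finset (Finset (Sym2 V))), Bun β χ Q → Q.card = N → Sp2 β Q →
    gb β (bs Q) + 3 * N = 6 * Fintype.card B

theorem mem_br3 {f g : Fin 3 → V} {e : Sym2 V} : e ∈ br3 f g ↔ ∃ k, s(f k, g k) = e := by
  classical
  unfold br3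
  simp

theorem mem_bs {Q : Finset (Finset (Sym2 V))} {x : Sym2 V} : x ∈ bs Q ↔ ∃ e ∈ Q, x ∈ e := by
  classical
  unfold bs
  simp

theorem bs_mono {Q Q' : Finset (Finset (Sym2 V))} (h : Q ⊆ Q') : bs Q ⊆ bs Q' := by
  intro x hx
  rw [mem_bs] at hx ⊢
  obtain ⟨e, he, hx⟩ := hx
  exact ⟨e, h he, hx⟩

theorem Bun.mono {β : V → B} {χ : V → Fin 3} {Q Q' : Finset (Finset (Sym2 V))} (h : Q ⊆ Q')
    (hQ : Bun β χ Q') : Bun β χ Q :=
  ⟨fun e he => hQ.1 e (h he), fun e he e' he' hne => hQ.2 e (h he) e' (h he') hne⟩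

theorem IsBd.symm {β : V → B} {χ : V → Fin 3} {b b' : B} {e : Finset (Sym2 V)}
    (h : IsBd β χ b b' e) : IsBd β χ b' b e := by
  classical
  obtain ⟨f, g, h1, h2, h3, h4, rfl⟩ := h
  have hb : Function.Bijective (fun k => χ (g k)) := Finite.injective_iff_bijective.1 h2
  let σ : Equiv.Perm (Fin 3) := Equiv.ofBijective _ hb
  have hσ : ∀ k, χ (g (σ.symm k)) = k := fun k => σ.apply_symm_apply k
  refine ⟨fun k => g (σ.symm k), fun k => f (σ.symm k), hσ, ?_, fun k => h4 _, fun k => h3 _, ?_⟩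
  · intro k l hkl
    simp only [h1] at hkl
    exact σ.symm.injective hkl
  · ext x
    rw [mem_br3, mem_br3]
    constructor
    · rintro ⟨k, rfl⟩
      exact ⟨σ k, by rw [Equiv.symm_apply_apply, Sym2.eq_swap]⟩
    · rintro ⟨k, rfl⟩
      exact ⟨σ.symm k, Sym2.eq_swap⟩

theorem IsBd.card {β : V → B} {χ : V → Fin 3} {b b' : B} {e : Finset (Sym2 V)}
    (h : IsBd β χ b b' e) (hb : b ≠ b') : e.card = 3 := by
  classical
  obtain ⟨f, g, h1, h2, h3, h4, rfl⟩ := h
  unfold br3
  rw [Finset.card_image_of_injective]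
  · simp
  · intro k l hkl
    have hkl' : s(f k, g k) = s(f l, g l) := hkl
    rw [Sym2.eq_iff] at hkl'
    rcases hkl' with ⟨h5, -⟩ | ⟨h5, -⟩
    · rw [← h1 k, ← h1 l, h5]
    · exact absurd ((h3 k).symm.trans ((congrArg β h5).trans (h4 l))) hb

/-- the ends of the bars of a bundle -/
theorem IsBd.mem_iff {β : V → B} {χ : V → Fin 3} {b b' : B} {e : Finset (Sym2 V)}
    (h : IsBd β χ b b' e) (C : Finset B) :
    (∀ x ∈ e, ∀ v ∈ x, β v ∈ C) ↔ b ∈ C ∧ b' ∈ C := by
  obtain ⟨f, g, h1, h2, h3, h4, rfl⟩ := h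
  constructor
  · intro h
    have h5 := h s(f 0, g 0) (mem_br3.2 ⟨0, rfl⟩)
    refine ⟨?_, ?_⟩
    · rw [← h3 0]
      exact h5 _ (Sym2.mem_mk_left _ _)
    · rw [← h4 0]
      exact h5 _ (Sym2.mem_mk_right _ _)
  · rintro ⟨hb, hb'⟩ x hx v hv
    obtain ⟨k, rfl⟩ := mem_br3.1 hx
    rcases Sym2.mem_iff.1 hv with rfl | rfl
    · rw [h3]
      exact hb
    · rw [h4]
      exact hb'

theorem card_bs {β : V → B} {χ : V → Fin 3} {Q : Finset (Finset (Sym2 V))} (h : Bun β χ Q) :
    (bs Q).card = 3 * Q.card := by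
  classical
  unfold bs
  rw [Finset.card_biUnion]
  · rw [Finset.sum_congr rfl (fun e he => (by
      obtain ⟨b, b', hne, hb⟩ := h.1 e he
      exact hb.card hne : (id e : Finset (Sym2 V)).card = 3)), Finset.sum_const, smul_eq_mul,
      mul_comm]
  · intro e he e' he' hne
    exact h.2 e he e' he' hne

theorem mem_qi {β : V → B} {Q : Finset (Finset (Sym2 V))} {C : Finset B} {e : Finset (Sym2 V)} :
    e ∈ qi β Q C ↔ e ∈ Q ∧ ∀ x ∈ e, ∀ v ∈ x, β v ∈ C := by
  classical
  unfold qi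
  rw [Finset.mem_filter]

theorem qi_subset (β : V → B) (Q : Finset (Finset (Sym2 V))) (C : Finset B) : qi β Q C ⊆ Q :=
  fun _ he => (mem_qi.1 he).1

theorem qi_mono {β : V → B} {Q Q' : Finset (Finset (Sym2 V))} {C C' : Finset B} (h : Q ⊆ Q')
    (hC : C ⊆ C') : qi β Q C ⊆ qi β Q' C' := by
  intro e he
  rw [mem_qi] at he ⊢
  exact ⟨h he.1, fun x hx v hv => hC (he.2 x hx v hv)⟩

theorem Sp2.mono {β : V → B} {Q Q' : Finset (Finset (Sym2 V))} (h : Q ⊆ Q') (hQ : Sp2 β Q') :
    Sp2 β Q := by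
  intro C hC
  have h1 := Finset.card_le_card (qi_mono (β := β) h (Finset.Subset.refl C))
  have h2 := hQ C hC
  omega

/-- the lower bound -/
theorem lower [Fintype V] [Fintype B] {β : V → B} {χ : V → Fin 3}
    {Q : Finset (Finset (Sym2 V))} (h : Bun β χ Q) :
    6 * Fintype.card B ≤ gb β (bs Q) + 3 * Q.card := by
  classical
  have h1 := le_card β (bs Q) (gx V)
  rw [card_bs h] at h1
  exact h1

end Pool.Agent.Y530.TB
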