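import Mathlib
import Pool.Agent.Y530.TB.Defs

/-!
# Statements of the parts
-/

set_option autoImplicit false

namespace Pool.Agent.Y530.TB

open Finset Module Pool.Agent.W824.BJ Pool.Agent.Y530.BB

open Classical in
/-- removal of a body with at most six bars, at most two at each point -/
def S_ROW : Prop := ∀ (V B : Type) [Fintype V] [Fintype B] (β : V → B) (y : B)
  (F0 F1 : Finset (Sym2 V)),
  (∀ u v, s(u, v) ∈ F0 → β u ≠ y ∧ β v ≠ y) →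
  (∀ u v, s(u, v) ∈ F1 → (β u = y ∧ β v ≠ y) ∨ (β u ≠ y ∧ β v = y)) →
  F1.card ≤ 6 → Cap F1 → gb β (F0 ∪ F1) + F1.card = gb β F0

/-- six lines: `a k` to `b k`, and `a k + b k` to `c k`, are independent for generic points -/
def S_SIX : Prop := ∀ (V : Type) [Fintype V] (A Bb Cc : Fin 3 → V),
  Function.Injective A → Function.Injective Bb → Function.Injective Cc →
  (∀ k l, A k ≠ Bb l) → (∀ k l, A k ≠ Cc l) → (∀ k l, Bb k ≠ Cc l) →
  ∀ T : Fin 6 → PK V, (∀ k, pr T (gx V (A k)) (gx V (Bb k)) = 0) →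
    (∀ k, pr T (gx V (A k) + gx V (Bb k)) (gx V (Cc k)) = 0) → T = 0

open Classical in
/-- the extension step -/
def S_EXT : Prop := ∀ (V B : Type) [Fintype V] [Fintype B] (β : V → B) (χ : V → Fin 3)
  (y a b c : B) (F0 : Finset (Sym2 V)) (fa fb fc A Bb Cc : Fin 3 → V),
  y ≠ a → y ≠ b → y ≠ c → a ≠ b → a ≠ c → b ≠ c →
  (∀ u v, s(u, v) ∈ F0 → β u ≠ y ∧ β v ≠ y) →
  (∀ k, β (fa k) = y) → (∀ k, β (fb k) = y) → (∀ k, β (fc k) = y) →
  (∀ k, χ (fa k) = k) → (∀ k, χ (fb k) = k) → (∀ k, χ (fc k) = k) →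
  (∀ k, β (A k) = a) → (∀ k, β (Bb k) = b) → (∀ k, β (Cc k) = c) →
  Function.Injective A → Function.Injective Bb → Function.Injective Cc →
  gb β (F0 ∪ (br3 fa A ∪ (br3 fb Bb ∪ br3 fc Cc))) + 6 ≤ gb β (F0 ∪ br3 A Bb)

/-- four bodies, numerical statement -/
def S_NUM : Prop := ∃ P : Fin 4 → Fin 3 → Fin 4 → ℚ, ∀ σ τ ρ : Fin 3 → Fin 3,
  Function.Injective σ → Function.Injective τ → Function.Injective ρ →
  ∀ n : Fin 4 → Fin 6 → ℚ, n 0 = 0 →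
    (∀ k, pr (n 1) (P 0 k) (P 1 k) = 0) → (∀ k, pr (n 2) (P 0 k) (P 2 k) = 0) →
    (∀ k, pr (n 3) (P 0 k) (P 3 k) = 0) →
    (∀ k, pr (n 1 - n 2) (P 1 k) (P 2 (σ k)) = 0) →
    (∀ k, pr (n 2 - n 3) (P 2 k) (P 3 (τ k)) = 0) →
    (∀ k, pr (n 3 - n 1) (P 3 k) (P 1 (ρ k)) = 0) → n = 0

/-- four bodies, any two joined by a bundle -/
def S_BASE : Prop := ∀ (V B : Type) [Fintype V] [Fintype B] (β : V → B) (χ : V → Fin 3)
  (b0 b1 b2 b3 : B) (F : Finset (Sym2 V)) (e01 e02 e03 e12 e23 e31 : Finset (Sym2 V)),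
  b0 ≠ b1 → b0 ≠ b2 → b0 ≠ b3 → b1 ≠ b2 → b2 ≠ b3 → b3 ≠ b1 →
  IsBd β χ b0 b1 e01 → IsBd β χ b0 b2 e02 → IsBd β χ b0 b3 e03 →
  IsBd β χ b1 b2 e12 → IsBd β χ b2 b3 e23 → IsBd β χ b3 b1 e31 →
  e01 ⊆ F → e02 ⊆ F → e03 ⊆ F → e12 ⊆ F → e23 ⊆ F → e31 ⊆ F →
  gb β F + 18 ≤ 6 * Fintype.card B

/-- contraction of a tight set of bodies -/
def S_CON : Prop := ∀ N, (∀ m < N, PQ m) → ∀ (V B : Type) [Fintype V] [Fintype B] (β : V → B)
  (χ : V → Fin 3) (Q : Finset (Finset (Sym2 V))), Bun β χ Q → Q.card = N → Sp2 β Q →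
  ∀ C : Finset B, 2 ≤ C.card → (qi β Q C).card + 2 = 2 * C.card → qi β Q C ≠ Q →
    gb β (bs Q) + 3 * N = 6 * Fintype.card B

/-- the rank of all systems of bundles, as a minimum over the partitions of the bodies -/
def S_UPP : Prop := (∀ N, PQ N) → ∀ (V B : Type) [Fintype V] [Fintype B] (β : V → B)
  (χ : V → Fin 3) (Q : Finset (Finset (Sym2 V))), Bun β χ Q →
  ∃ r : Setoid B, 6 * Nat.card (Quotient r) =
    gb β (bs Q) + (crs (Quotient.mk r ∘ β) (bs Q)).card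

end Pool.Agent.Y530.TB
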