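import Mathlib
import Pool.Agent.Y530.TB.Stm

/-!
# The main induction
-/

set_option autoImplicit false

namespace Pool.Agent.Y530.TB

open Finset Module Pool.Agent.W824.BJ Pool.Agent.Y530.BB

variable {V B : Type}

theorem IsBd.br {β : V → B} {χ : V → Fin 3} {b b' : B} {e : Finset (Sym2 V)}
    (h : IsBd β χ b b' e) {x : Sym2 V} (hx : x ∈ e) :
    ∃ u v, β u = b ∧ β v = b' ∧ x = s(u, v) := by
  obtain ⟨f, g, h1, h2, h3, h4, rfl⟩ := h
  obtain ⟨k, rfl⟩ := mem_br3.1 hx
  exact ⟨f k, g k, h3 k, h4 k, rfl⟩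

/-- `e` touches `y` -/
def Tc (β : V → B) (y : B) (e : Finset (Sym2 V)) : Prop := ∃ x ∈ e, ∃ v ∈ x, β v = y

theorem IsBd.tc {β : V → B} {χ : V → Fin 3} {b b' : B} {e : Finset (Sym2 V)}
    (h : IsBd β χ b b' e) (y : B) : Tc β y e ↔ y = b ∨ y = b' := by
  constructor
  · rintro ⟨x, hx, v, hv, rfl⟩
    obtain ⟨u, w, rfl, rfl, rfl⟩ := h.br hx
    rcases Sym2.mem_iff.1 hv with rfl | rfl
    · exact Or.inl rfl
    · exact Or.inr rfl
  · intro hy
    obtain ⟨f, g, h1, h2, h3, h4, rfl⟩ := h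
    rcases hy with rfl | rfl
    · exact ⟨s(f 0, g 0), mem_br3.2 ⟨0, rfl⟩, f 0, Sym2.mem_mk_left _ _, h3 0⟩
    · exact ⟨s(f 0, g 0), mem_br3.2 ⟨0, rfl⟩, g 0, Sym2.mem_mk_right _ _, h4 0⟩

theorem IsBd.mem_qi {β : V → B} {χ : V → Fin 3} {b b' : B} {e : Finset (Sym2 V)}
    {Q : Finset (Finset (Sym2 V))} (h : IsBd β χ b b' e) (C : Finset B) :
    e ∈ qi β Q C ↔ e ∈ Q ∧ b ∈ C ∧ b' ∈ C := by
  rw [TB.mem_qi, h.mem_iff]

open Classical in
/-- the bundles at `y` -/
noncomputable def qy (β : V → B) (Q : Finset (Finset (Sym2 V))) (y : B) :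
    Finset (Finset (Sym2 V)) := Q.filter fun e => Tc β y e

open Classical in
/-- the bundles not at `y` -/
noncomputable def qn (β : V → B) (Q : Finset (Finset (Sym2 V))) (y : B) :
    Finset (Finset (Sym2 V)) := Q.filter fun e => ¬ Tc β y e

theorem mem_qy {β : V → B} {Q : Finset (Finset (Sym2 V))} {y : B} {e : Finset (Sym2 V)} :
    e ∈ qy β Q y ↔ e ∈ Q ∧ Tc β y e := by
  classical
  unfold qy
  rw [Finset.mem_filter]

theorem mem_qn {β : V → B} {Q : Finset (Finset (Sym2 V))} {y : B} {e : Finset (Sym2 V)} :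
    e ∈ qn β Q y ↔ e ∈ Q ∧ ¬ Tc β y e := by
  classical
  unfold qn
  rw [Finset.mem_filter]

theorem qn_subset (β : V → B) (Q : Finset (Finset (Sym2 V))) (y : B) : qn β Q y ⊆ Q :=
  fun _ he => (mem_qn.1 he).1

theorem qy_subset (β : V → B) (Q : Finset (Finset (Sym2 V))) (y : B) : qy β Q y ⊆ Q :=
  fun _ he => (mem_qy.1 he).1

theorem card_yn (β : V → B) (Q : Finset (Finset (Sym2 V))) (y : B) :
    (qy β Q y).card + (qn β Q y).card = Q.card := by
  classical
  unfold qy qn
  exact Finset.card_filter_add_card_filter_not _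

open Classical in
theorem bs_yn (β : V → B) (Q : Finset (Finset (Sym2 V))) (y : B) :
    bs Q = bs (qn β Q y) ∪ bs (qy β Q y) := by
  ext x
  rw [Finset.mem_union, mem_bs, mem_bs, mem_bs]
  constructor
  · rintro ⟨e, he, hx⟩
    by_cases h : Tc β y e
    · exact Or.inr ⟨e, mem_qy.2 ⟨he, h⟩, hx⟩
    · exact Or.inl ⟨e, mem_qn.2 ⟨he, h⟩, hx⟩
  · rintro (⟨e, he, hx⟩ | ⟨e, he, hx⟩)
    · exact ⟨e, (mem_qn.1 he).1, hx⟩
    · exact ⟨e, (mem_qy.1 he).1, hx⟩

theorem sum_dg [Fintype B] {β : V → B} {χ : V → Fin 3} {Q : Finset (Finset (Sym2 V))}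
    (h : Bun β χ Q) : ∑ y : B, (qy β Q y).card = 2 * Q.card := by
  classical
  have h1 := Finset.sum_card_bipartiteAbove_eq_sum_card_bipartiteBelow (Tc β)
    (s := (univ : Finset B)) (t := Q)
  have h2 : ∀ e ∈ Q, ((univ : Finset B).bipartiteBelow (Tc β) e).card = 2 := by
    intro e he
    obtain ⟨b, b', hne, hb⟩ := h.1 e he
    have : (univ : Finset B).bipartiteBelow (Tc β) e = {b, b'} := by
      ext y
      simp [Finset.bipartiteBelow, hb.tc]
    rw [this, Finset.card_pair hne]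
  rw [Finset.sum_congr rfl h2, Finset.sum_const, smul_eq_mul, mul_comm] at h1
  rw [← h1]
  refine Finset.sum_congr rfl fun y _ => ?_
  congr 1

theorem exists_low [Fintype B] {β : V → B} {χ : V → Fin 3} {Q : Finset (Finset (Sym2 V))}
    (h : Bun β χ Q) (hs : Sp2 β Q) (hQ : Q.Nonempty) :
    ∃ y : B, 1 ≤ (qy β Q y).card ∧ (qy β Q y).card ≤ 3 := by
  classical
  by_contra hcon
  push Not at hcon
  have h1 := sum_dg h
  let P : Finset B := univ.filter fun y : B => 1 ≤ (qy β Q y).card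
  have hP : ∀ y, y ∈ P ↔ 1 ≤ (qy β Q y).card := by
    intro y
    simp [P]
  have h2 : ∑ y ∈ P, (qy β Q y).card = ∑ y : B, (qy β Q y).card := by
    refine Finset.sum_subset (Finset.subset_univ _) fun y _ hy => ?_
    rw [hP] at hy
    omega
  have h3 : P.card * 4 ≤ ∑ y ∈ P, (qy β Q y).card := by
    refine Finset.card_nsmul_le_sum P _ 4 fun y hy => ?_
    exact hcon y ((hP y).1 hy)
  have h4 : ∀ e ∈ Q, ∀ y, Tc β y e → y ∈ P := by
    intro e he y hy
    rw [hP]
    exact Finset.card_pos.2 ⟨e, mem_qy.2 ⟨he, hy⟩⟩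
  obtain ⟨e, he⟩ := hQ
  obtain ⟨b, b', hne, hb⟩ := h.1 e he
  have h5 := hs P ⟨b, h4 e he b ((hb.tc b).2 (Or.inl rfl))⟩
  have h6 : qi β Q P = Q := by
    ext e'
    constructor
    · exact fun h => (mem_qi.1 h).1
    · intro h
      exact mem_qi.2 ⟨h, fun x hx v hv => h4 e' h _ ⟨x, hx, v, hv, rfl⟩⟩
  rw [h6] at h5
  omega

/-- a vertex is in at most one bar of a bundle -/
theorem IsBd.one {β : V → B} {χ : V → Fin 3} {b b' : B} {e : Finset (Sym2 V)}
    (h : IsBd β χ b b' e) (hne : b ≠ b') {x x' : Sym2 V} (hx : x ∈ e) (hx' : x' ∈ e) {v : V}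
    (hv : v ∈ x) (hv' : v ∈ x') : x = x' := by
  obtain ⟨f, g, h1, h2, h3, h4, rfl⟩ := h
  obtain ⟨k, rfl⟩ := mem_br3.1 hx
  obtain ⟨l, rfl⟩ := mem_br3.1 hx'
  have key : k = l := by
    rcases Sym2.mem_iff.1 hv with rfl | rfl
    · rcases Sym2.mem_iff.1 hv' with h5 | h5
      · rw [← h1 k, h5, h1]
      · exact absurd ((h3 k).symm.trans ((congrArg β h5).trans (h4 l))) hne
    · rcases Sym2.mem_iff.1 hv' with h5 | h5
      · exact absurd ((h3 l).symm.trans ((congrArg β h5).symm.trans (h4 k))) hne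
      · exact h2 (congrArg χ h5)
  rw [key]

theorem cap_bs {β : V → B} {χ : V → Fin 3} {Q : Finset (Finset (Sym2 V))}
    (h : Bun β χ Q) (h2 : Q.card ≤ 2) : Cap (bs Q) := by
  classical
  intro v
  have h3 : ((bs Q).filter fun e => v ∈ e) ⊆ Q.biUnion fun e => e.filter fun x => v ∈ x := by
    intro x hx
    rw [Finset.mem_filter, mem_bs] at hx
    obtain ⟨⟨e, he, hx⟩, hv⟩ := hx
    rw [Finset.mem_biUnion]
    exact ⟨e, he, Finset.mem_filter.2 ⟨hx, hv⟩⟩
  have h4 : (Q.biUnion fun e => e.filter fun x => v ∈ x).card ≤ Q.card * 1 := by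
    refine Finset.card_biUnion_le_card_mul _ _ _ fun e he => ?_
    obtain ⟨b, b', hne, hb⟩ := h.1 e he
    rw [Finset.card_le_one]
    intro x hx x' hx'
    rw [Finset.mem_filter] at hx hx'
    exact hb.one hne hx.1 hx'.1 hx.2 hx'.2
  refine le_trans ?_ (h4.trans (by omega))
  convert Finset.card_le_card h3

/-- bars not at `y` -/
theorem bs_qn {β : V → B} {Q : Finset (Finset (Sym2 V))} {y : B} (u v : V)
    (h : s(u, v) ∈ bs (qn β Q y)) : β u ≠ y ∧ β v ≠ y := by
  obtain ⟨e, he, hx⟩ := mem_bs.1 h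
  obtain ⟨h1, h2⟩ := mem_qn.1 he
  exact ⟨fun h3 => h2 ⟨_, hx, u, Sym2.mem_mk_left _ _, h3⟩,
    fun h3 => h2 ⟨_, hx, v, Sym2.mem_mk_right _ _, h3⟩⟩

/-- the bundles at `y` join `y` to another body -/
theorem at_y {β : V → B} {χ : V → Fin 3} {Q : Finset (Finset (Sym2 V))} (h : Bun β χ Q) {y : B}
    {e : Finset (Sym2 V)} (he : e ∈ qy β Q y) : ∃ a, y ≠ a ∧ IsBd β χ y a e := by
  obtain ⟨h1, h2⟩ := mem_qy.1 he
  obtain ⟨b, b', hne, hb⟩ := h.1 e h1
  rcases (hb.tc y).1 h2 with rfl | rfl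
  · exact ⟨b', hne, hb⟩
  · exact ⟨b, hne.symm, hb.symm⟩

theorem bs_qy {β : V → B} {χ : V → Fin 3} {Q : Finset (Finset (Sym2 V))} (h : Bun β χ Q) {y : B}
    (u v : V) (hx : s(u, v) ∈ bs (qy β Q y)) :
    (β u = y ∧ β v ≠ y) ∨ (β u ≠ y ∧ β v = y) := by
  obtain ⟨e, he, hx⟩ := mem_bs.1 hx
  obtain ⟨a, hne, hb⟩ := at_y h he
  obtain ⟨u', v', rfl, rfl, h1⟩ := hb.br hx
  rcases Sym2.eq_iff.1 h1 with ⟨rfl, rfl⟩ | ⟨rfl, rfl⟩
  · exact Or.inl ⟨rfl, hne.symm⟩
  · exact Or.inr ⟨hne.symm, rfl⟩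

/-- a body with one or two bundles -/
theorem stepA (hrow : S_ROW) {N : ℕ} (IH : ∀ m < N, PQ m) [Fintype V] [Fintype B] (β : V → B)
    (χ : V → Fin 3) (Q : Finset (Finset (Sym2 V))) (hQ : Bun β χ Q) (hN : Q.card = N)
    (hs : Sp2 β Q) (y : B) (h1 : 1 ≤ (qy β Q y).card) (h2 : (qy β Q y).card ≤ 2) :
    gb β (bs Q) + 3 * N = 6 * Fintype.card B := by
  classical
  have h3 := card_yn β Q y
  have h4 := IH (qn β Q y).card (by omega) V B β χ (qn β Q y) (hQ.mono (qn_subset β Q y)) rfl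
    (hs.mono (qn_subset β Q y))
  have h5 := card_bs (hQ.mono (qy_subset β Q y))
  have h6 := hrow V B β y (bs (qn β Q y)) (bs (qy β Q y)) bs_qn (bs_qy hQ) (by omega)
    (cap_bs (hQ.mono (qy_subset β Q y)) h2)
  have h7 : gb β (bs Q) = gb β (bs (qn β Q y) ∪ bs (qy β Q y)) := by
    congr 1
    rw [bs_yn β Q y]
  rw [h7]
  have h8 : gb β (bs (qn β Q y) ∪ bs (qy β Q y)) + (bs (qy β Q y)).card
      = gb β (bs (qn β Q y)) := by
    convert h6
  omega

/-- two bundles of a family with the same bodies: the other body determines the bundle when there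
is a third one -/
theorem distinct [Fintype B] {β : V → B} {χ : V → Fin 3} {Q : Finset (Finset (Sym2 V))}
    (hs : Sp2 β Q)
    (hnt : ¬ ∃ C : Finset B, 2 ≤ C.card ∧ (qi β Q C).card + 2 = 2 * C.card ∧ qi β Q C ≠ Q)
    {y a b : B} (hya : y ≠ a) {e1 e2 e3 : Finset (Sym2 V)} (h1 : e1 ∈ Q) (h2 : e2 ∈ Q)
    (h3 : e3 ∈ Q) (h12 : e1 ≠ e2) (h13 : e1 ≠ e3) (h23 : e2 ≠ e3) (b1 : IsBd β χ y a e1)
    (b2 : IsBd β χ y b e2) : a ≠ b := by
  classical
  rintro rfl
  have hC : ({y, a} : Finset B).card = 2 := Finset.card_pair hya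
  have h4 := hs {y, a} ⟨y, by simp⟩
  have m1 : e1 ∈ qi β Q {y, a} := (b1.mem_qi _).2 ⟨h1, by simp, by simp⟩
  have m2 : e2 ∈ qi β Q {y, a} := (b2.mem_qi _).2 ⟨h2, by simp, by simp⟩
  have h5 : 2 ≤ (qi β Q {y, a}).card := by
    rw [← Finset.card_pair h12]
    refine Finset.card_le_card fun e he => ?_
    rcases Finset.mem_insert.1 he with rfl | he
    · exact m1
    · rw [Finset.mem_singleton] at he
      rw [he]
      exact m2
  refine hnt ⟨{y, a}, hC.ge, by omega, fun h6 => ?_⟩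
  have h7 : ({e1, e2, e3} : Finset (Finset (Sym2 V))) ⊆ qi β Q {y, a} := by
    intro e he
    rw [h6]
    simp only [Finset.mem_insert, Finset.mem_singleton] at he
    rcases he with rfl | rfl | rfl
    · exact h1
    · exact h2
    · exact h3
  have h8 : ({e1, e2, e3} : Finset (Finset (Sym2 V))).card = 3 :=
    Finset.card_eq_three.2 ⟨e1, e2, e3, h12, h13, h23, rfl⟩
  have := Finset.card_le_card h7
  omega

/-- two bodies joined by a bundle -/
def Jn (β : V → B) (χ : V → Fin 3) (Q : Finset (Finset (Sym2 V))) (a b : B) : Prop :=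
  ∃ e ∈ Q, IsBd β χ a b e

theorem Jn.symm {β : V → B} {χ : V → Fin 3} {Q : Finset (Finset (Sym2 V))} {a b : B}
    (h : Jn β χ Q a b) : Jn β χ Q b a := by
  obtain ⟨e, he, h⟩ := h
  exact ⟨e, he, h.symm⟩

/-- a body with three bundles, two of whose neighbours are not joined -/
theorem stepB (hext : S_EXT) {N : ℕ} (IH : ∀ m < N, PQ m) [Fintype V] [Fintype B] (β : V → B)
    (χ : V → Fin 3) (Q : Finset (Finset (Sym2 V))) (hQ : Bun β χ Q) (hN : Q.card = N)
    (hs : Sp2 β Q)
    (hnt : ¬ ∃ C : Finset B, 2 ≤ C.card ∧ (qi β Q C).card + 2 = 2 * C.card ∧ qi β Q C ≠ Q)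
    {y a b c : B} (hya : y ≠ a) (hyb : y ≠ b) (hyc : y ≠ c) {e1 e2 e3 : Finset (Sym2 V)}
    (hy : ∀ e, e ∈ qy β Q y ↔ e = e1 ∨ e = e2 ∨ e = e3) (h12 : e1 ≠ e2) (h13 : e1 ≠ e3) (h23 : e2 ≠ e3)
    (b1 : IsBd β χ y a e1) (b2 : IsBd β χ y b e2) (b3 : IsBd β χ y c e3)
    (hab : ¬ Jn β χ Q a b) : gb β (bs Q) + 3 * N = 6 * Fintype.card B := by
  classical
  have m1 : e1 ∈ Q := qy_subset β Q y ((hy _).2 (by simp))
  have m2 : e2 ∈ Q := qy_subset β Q y ((hy _).2 (by simp))
  have m3 : e3 ∈ Q := qy_subset β Q y ((hy _).2 (by simp))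
  have dab : a ≠ b := distinct hs hnt hya m1 m2 m3 h12 h13 h23 b1 b2
  have dac : a ≠ c := distinct hs hnt hya m1 m3 m2 h13 h12 h23.symm b1 b3
  have dbc : b ≠ c := distinct hs hnt hyb m2 m3 m1 h23 h12.symm h13.symm b2 b3
  obtain ⟨fa, A, ha1, ha2, ha3, ha4, he1⟩ := id b1
  obtain ⟨fb, Bb, hb1, hb2, hb3, hb4, he2⟩ := id b2
  obtain ⟨fc, Cc, hc1, hc2, hc3, hc4, he3⟩ := id b3
  have iA : Function.Injective A := fun k l h => ha2 (congrArg χ h)
  have iB : Function.Injective Bb := fun k l h => hb2 (congrArg χ h)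
  have iC : Function.Injective Cc := fun k l h => hc2 (congrArg χ h)
  -- the new bundle
  have hnew : IsBd β χ a b (br3 A Bb) := by
    have hbA : Function.Bijective (fun k => χ (A k)) := Finite.injective_iff_bijective.1 ha2
    let σ : Equiv.Perm (Fin 3) := Equiv.ofBijective _ hbA
    have hσ : ∀ k, χ (A (σ.symm k)) = k := fun k => σ.apply_symm_apply k
    refine ⟨fun k => A (σ.symm k), fun k => Bb (σ.symm k), hσ, ?_, fun k => ha4 _, fun k => hb4 _,
      ?_⟩
    · intro k l hkl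
      exact σ.symm.injective (hb2 hkl)
    · ext x
      rw [mem_br3, mem_br3]
      constructor
      · rintro ⟨k, rfl⟩
        exact ⟨σ k, by rw [Equiv.symm_apply_apply]⟩
      · rintro ⟨k, rfl⟩
        exact ⟨σ.symm k, rfl⟩
  have hdis : ∀ e ∈ Q, Disjoint (br3 A Bb) e := by
    intro e he
    rw [Finset.disjoint_left]
    intro x hx hx'
    obtain ⟨u, v, hu, hv, rfl⟩ := hnew.br hx
    obtain ⟨p, p', hne, hb⟩ := hQ.1 e he
    obtain ⟨u', v', hu', hv', h5⟩ := hb.br hx'
    rcases Sym2.eq_iff.1 h5 with ⟨rfl, rfl⟩ | ⟨rfl, rfl⟩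
    · rw [hu] at hu'
      rw [hv] at hv'
      subst hu'
      subst hv'
      exact hab ⟨e, he, hb⟩
    · rw [hu] at hv'
      rw [hv] at hu'
      subst hu'
      subst hv'
      exact hab ⟨e, he, hb.symm⟩
  have hnotin : br3 A Bb ∉ qn β Q y := by
    intro h
    have h5 := hdis _ (qn_subset β Q y h)
    rw [Finset.disjoint_self_iff_empty] at h5
    have h6 : s(A 0, Bb 0) ∈ br3 A Bb := mem_br3.2 ⟨0, rfl⟩
    rw [h5] at h6
    simp at h6
  have hbun : Bun β χ (insert (br3 A Bb) (qn β Q y)) := by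
    refine ⟨?_, ?_⟩
    · intro e he
      rcases Finset.mem_insert.1 he with rfl | he
      · exact ⟨a, b, dab, hnew⟩
      · exact hQ.1 e (qn_subset β Q y he)
    · intro e he e' he' hne
      rcases Finset.mem_insert.1 he with rfl | he
      · rcases Finset.mem_insert.1 he' with rfl | he'
        · exact absurd rfl hne
        · exact hdis e' (qn_subset β Q y he')
      · rcases Finset.mem_insert.1 he' with rfl | he'
        · exact (hdis e (qn_subset β Q y he)).symm
        · exact hQ.2 e (qn_subset β Q y he) e' (qn_subset β Q y he') hne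
  have hcy : (qy β Q y).card = 3 := by
    refine Finset.card_eq_three.2 ⟨e1, e2, e3, h12, h13, h23, ?_⟩
    ext e
    rw [hy]
    simp
  have hcyn := card_yn β Q y
  have hcard : (insert (br3 A Bb) (qn β Q y)).card = N - 2 := by
    rw [Finset.card_insert_of_notMem hnotin]
    omega
  -- the bundles at y are in every set containing y, a, b
  have hadd : ∀ C : Finset B, a ∈ C → b ∈ C →
      (qi β (qn β Q y) C).card + 2 ≤ (qi β Q (insert y C)).card := by
    intro C haC hbC
    have h5 : Disjoint (qi β (qn β Q y) C) {e1, e2} := by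
      rw [Finset.disjoint_left]
      intro e he he'
      have h6 := (mem_qn.1 (mem_qi.1 he).1).2
      simp only [Finset.mem_insert, Finset.mem_singleton] at he'
      rcases he' with rfl | rfl
      · exact h6 ((b1.tc y).2 (Or.inl rfl))
      · exact h6 ((b2.tc y).2 (Or.inl rfl))
    rw [← Finset.card_pair h12, ← Finset.card_union_of_disjoint h5]
    refine Finset.card_le_card fun e he => ?_
    rcases Finset.mem_union.1 he with he | he
    · exact qi_mono (qn_subset β Q y) (Finset.subset_insert _ _) he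
    · simp only [Finset.mem_insert, Finset.mem_singleton] at he
      rcases he with rfl | rfl
      · exact (b1.mem_qi _).2 ⟨m1, by simp, by simp [haC]⟩
      · exact (b2.mem_qi _).2 ⟨m2, by simp, by simp [hbC]⟩
  have hsp : Sp2 β (insert (br3 A Bb) (qn β Q y)) := by
    intro C hC
    by_cases hab' : a ∈ C ∧ b ∈ C
    · have h5 : (qi β (insert (br3 A Bb) (qn β Q y)) C).card
          ≤ (qi β (qn β Q y) C).card + 1 := by
        have h6 : qi β (insert (br3 A Bb) (qn β Q y)) C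
            ⊆ insert (br3 A Bb) (qi β (qn β Q y) C) := by
          intro e he
          rw [mem_qi] at he
          rcases Finset.mem_insert.1 he.1 with rfl | h7
          · exact Finset.mem_insert_self _ _
          · exact Finset.mem_insert_of_mem (mem_qi.2 ⟨h7, he.2⟩)
        exact (Finset.card_le_card h6).trans (Finset.card_insert_le _ _)
      have h7 := hadd C hab'.1 hab'.2
      by_cases hyC : y ∈ C
      · rw [Finset.insert_eq_of_mem hyC] at h7
        have := hs C hC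
        omega
      · by_contra hcon
        have h8 : qi β Q C = qi β (qn β Q y) C := by
          refine Finset.Subset.antisymm (fun e he => ?_) (qi_mono (qn_subset β Q y) subset_rfl)
          rw [mem_qi] at he ⊢
          refine ⟨mem_qn.2 ⟨he.1, ?_⟩, he.2⟩
          rintro ⟨x, hx, v, hv, hvy⟩
          exact hyC (hvy ▸ he.2 x hx v hv)
        have h9 := hs C hC
        refine hnt ⟨C, ?_, ?_, ?_⟩
        · have h10 : ({a, b} : Finset B) ⊆ C := by
            intro x hx
            simp only [Finset.mem_insert, Finset.mem_singleton] at hx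
            rcases hx with rfl | rfl
            · exact hab'.1
            · exact hab'.2
          have := Finset.card_le_card h10
          rwa [Finset.card_pair dab] at this
        · rw [h8] at h9 ⊢
          omega
        · intro h10
          have h11 : e1 ∈ qi β Q C := by
            rw [h10]
            exact m1
          exact hyC ((b1.mem_qi C).1 h11).2.1
    · have h5 : qi β (insert (br3 A Bb) (qn β Q y)) C ⊆ qi β Q C := by
        intro e he
        rw [mem_qi] at he ⊢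
        rcases Finset.mem_insert.1 he.1 with rfl | h7
        · exact absurd ((hnew.mem_iff C).1 he.2) hab'
        · exact ⟨qn_subset β Q y h7, he.2⟩
      have := Finset.card_le_card h5
      have := hs C hC
      omega
  have h20 := IH (N - 2) (by omega) V B β χ _ hbun hcard hsp
  have h21 := hext V B β χ y a b c (bs (qn β Q y)) fa fb fc A Bb Cc hya hyb hyc dab dac dbc
    bs_qn ha3 hb3 hc3 ha1 hb1 hc1 ha4 hb4 hc4 iA iB iC
  have h22 : bs Q = bs (qn β Q y) ∪ (br3 fa A ∪ (br3 fb Bb ∪ br3 fc Cc)) := by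
    rw [bs_yn β Q y]
    ext x
    rw [Finset.mem_union, Finset.mem_union, Finset.mem_union, Finset.mem_union,
      mem_bs (Q := qy β Q y)]
    simp only [hy, or_and_right, exists_or, exists_eq_left, he1, he2, he3]
  have h23 : bs (insert (br3 A Bb) (qn β Q y)) = bs (qn β Q y) ∪ br3 A Bb := by
    ext x
    rw [Finset.mem_union, mem_bs, mem_bs]
    simp only [Finset.mem_insert, exists_eq_or_imp]
    exact or_comm
  have h24 : gb β (bs Q) + 6 ≤ gb β (bs (insert (br3 A Bb) (qn β Q y))) := by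
    rw [h22, h23]
    convert h21
  have h25 := lower hQ
  omega

/-- four bodies joined pairwise -/
theorem stepC (hbase : S_BASE) {N : ℕ} [Fintype V] [Fintype B] (β : V → B)
    (χ : V → Fin 3) (Q : Finset (Finset (Sym2 V))) (hQ : Bun β χ Q) (hN : Q.card = N)
    (hs : Sp2 β Q)
    (hnt : ¬ ∃ C : Finset B, 2 ≤ C.card ∧ (qi β Q C).card + 2 = 2 * C.card ∧ qi β Q C ≠ Q)
    {b0 b1 b2 b3 : B} (h01 : b0 ≠ b1) (h02 : b0 ≠ b2) (h03 : b0 ≠ b3) (h12 : b1 ≠ b2)
    (h23 : b2 ≠ b3) (h31 : b3 ≠ b1) (j01 : Jn β χ Q b0 b1) (j02 : Jn β χ Q b0 b2)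
    (j03 : Jn β χ Q b0 b3) (j12 : Jn β χ Q b1 b2) (j23 : Jn β χ Q b2 b3)
    (j31 : Jn β χ Q b3 b1) : gb β (bs Q) + 3 * N = 6 * Fintype.card B := by
  classical
  have hC : ({b0, b1, b2, b3} : Finset B).card = 4 := by
    rw [Finset.card_insert_of_notMem (by simp [h01, h02, h03]),
      Finset.card_insert_of_notMem (by simp [h12, h31.symm]), Finset.card_pair h23]
  have hJ : ∀ u ∈ ({b0, b1, b2, b3} : Finset B), ∀ v ∈ ({b0, b1, b2, b3} : Finset B), u ≠ v →
      Jn β χ Q u v := by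
    intro u hu v hv huv
    simp only [Finset.mem_insert, Finset.mem_singleton] at hu hv
    rcases hu with rfl | rfl | rfl | rfl <;> rcases hv with rfl | rfl | rfl | rfl <;>
      first
        | exact absurd rfl huv
        | assumption
        | exact Jn.symm (by assumption)
  let tc : Finset (Sym2 V) → Finset B := fun e => univ.filter fun b => Tc β b e
  have htc : ∀ {u v e}, IsBd β χ u v e → tc e = {u, v} := by
    intro u v e h
    ext b
    simp [tc, h.tc]
  have h6 : Finset.powersetCard 2 ({b0, b1, b2, b3} : Finset B)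
      ⊆ (qi β Q {b0, b1, b2, b3}).image tc := by
    intro s hs'
    rw [Finset.mem_powersetCard] at hs'
    obtain ⟨u, v, huv, rfl⟩ := Finset.card_eq_two.1 hs'.2
    have hu := hs'.1 (Finset.mem_insert_self u _)
    have hv := hs'.1 (Finset.mem_insert_of_mem (Finset.mem_singleton_self v))
    obtain ⟨e, he, hb⟩ := hJ u hu v hv huv
    rw [Finset.mem_image]
    exact ⟨e, (hb.mem_qi _).2 ⟨he, hu, hv⟩, htc hb⟩
  have h7 : 6 ≤ (qi β Q {b0, b1, b2, b3}).card := by
    have h8 := Finset.card_le_card h6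
    rw [Finset.card_powersetCard, hC] at h8
    exact le_trans (by decide) (h8.trans Finset.card_image_le)
  have h8 := hs {b0, b1, b2, b3} ⟨b0, by simp⟩
  have h9 : qi β Q {b0, b1, b2, b3} = Q := by
    by_contra hne
    exact hnt ⟨{b0, b1, b2, b3}, by omega, by omega, hne⟩
  rw [h9] at h7 h8
  obtain ⟨e01, m01, c01⟩ := j01
  obtain ⟨e02, m02, c02⟩ := j02
  obtain ⟨e03, m03, c03⟩ := j03
  obtain ⟨e12, m12, c12⟩ := j12
  obtain ⟨e23, m23, c23⟩ := j23
  obtain ⟨e31, m31, c31⟩ := j31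
  have hsub : ∀ e ∈ Q, e ⊆ bs Q := fun e he x hx => mem_bs.2 ⟨e, he, hx⟩
  have h10 := hbase V B β χ b0 b1 b2 b3 (bs Q) e01 e02 e03 e12 e23 e31 h01 h02 h03 h12 h23 h31
    c01 c02 c03 c12 c23 c31 (hsub _ m01) (hsub _ m02) (hsub _ m03) (hsub _ m12) (hsub _ m23)
    (hsub _ m31)
  have h11 := lower hQ
  omega

/-- the theorem on systems of bundles -/
theorem all_PQ (hrow : S_ROW) (hext : S_EXT) (hbase : S_BASE) (hcon : S_CON) : ∀ N, PQ N := by
  intro N
  induction N using Nat.strong_induction_on with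
  | _ N IH =>
    intro V B _ _ β χ Q hQ hN hs
    classical
    by_cases hnt : ∃ C : Finset B, 2 ≤ C.card ∧ (qi β Q C).card + 2 = 2 * C.card ∧ qi β Q C ≠ Q
    · obtain ⟨C, h1, h2, h3⟩ := hnt
      exact hcon N IH V B β χ Q hQ hN hs C h1 h2 h3
    rcases Finset.eq_empty_or_nonempty Q with rfl | hne
    · have h1 : gb β (bs ∅) = 6 * Fintype.card B := by
        have h2 : bs (∅ : Finset (Finset (Sym2 V))) = ∅ := by
          ext x
          rw [mem_bs]
          simp
        rw [h2]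
        unfold gb GB
        rw [BM_empty, finrank_top']
      rw [Finset.card_empty] at hN
      rw [h1, ← hN]
      omega
    · obtain ⟨y, h1, h2⟩ := exists_low hQ hs hne
      by_cases h3 : (qy β Q y).card ≤ 2
      · exact stepA hrow IH β χ Q hQ hN hs y h1 h3
      · have h4 : (qy β Q y).card = 3 := by omega
        obtain ⟨e1, e2, e3, h12, h13, h23, hy'⟩ := Finset.card_eq_three.1 h4
        have hy : ∀ e, e ∈ qy β Q y ↔ e = e1 ∨ e = e2 ∨ e = e3 := by
          intro e
          rw [hy']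
          simp
        obtain ⟨a, hya, b1⟩ := at_y hQ (y := y) (e := e1) ((hy _).2 (by simp))
        obtain ⟨b, hyb, b2⟩ := at_y hQ (y := y) (e := e2) ((hy _).2 (by simp))
        obtain ⟨c, hyc, b3⟩ := at_y hQ (y := y) (e := e3) ((hy _).2 (by simp))
        have m1 : e1 ∈ Q := qy_subset β Q y ((hy _).2 (by simp))
        have m2 : e2 ∈ Q := qy_subset β Q y ((hy _).2 (by simp))
        have m3 : e3 ∈ Q := qy_subset β Q y ((hy _).2 (by simp))
        have dab : a ≠ b := distinct hs hnt hya m1 m2 m3 h12 h13 h23 b1 b2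
        have dac : a ≠ c := distinct hs hnt hya m1 m3 m2 h13 h12 h23.symm b1 b3
        have dbc : b ≠ c := distinct hs hnt hyb m2 m3 m1 h23 h12.symm h13.symm b2 b3
        by_cases jab : Jn β χ Q a b
        · by_cases jbc : Jn β χ Q b c
          · by_cases jca : Jn β χ Q c a
            · exact stepC hbase β χ Q hQ hN hs hnt hya hyb hyc dab dbc dac.symm ⟨e1, m1, b1⟩
                ⟨e2, m2, b2⟩ ⟨e3, m3, b3⟩ jab jbc jca
            · refine stepB hext IH β χ Q hQ hN hs hnt hyc hya hyb (e1 := e3) (e2 := e1)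
                (e3 := e2) ?_ h13.symm h23.symm h12 b3 b1 b2 jca
              intro e
              rw [hy e]
              exact ⟨fun h => by rcases h with h | h | h <;> simp [h],
                fun h => by rcases h with h | h | h <;> simp [h]⟩
          · refine stepB hext IH β χ Q hQ hN hs hnt hyb hyc hya (e1 := e2) (e2 := e3)
              (e3 := e1) ?_ h23 h12.symm h13.symm b2 b3 b1 jbc
            intro e
            rw [hy e]
            exact ⟨fun h => by rcases h with h | h | h <;> simp [h],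
              fun h => by rcases h with h | h | h <;> simp [h]⟩
        · exact stepB hext IH β χ Q hQ hN hs hnt hya hyb hyc hy h12 h13 h23 b1 b2 b3 jab

end Pool.Agent.Y530.TB
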