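import Mathlib
import Pool.Agent.Y530.TB.Ind
import Pool.Agent.Y530.BB.Main

/-!
# Mixed systems of bundles and bars: counting
-/

set_option autoImplicit false

namespace Pool.Agent.Y530.TB

open Finset Module Pool.Agent.W824.BJ Pool.Agent.Y530.BB

section defs

variable {V B : Type}

open Classical in
/-- mixed systems: bundles `Q`, and bars both ends of which are in at most two bars and in no
bundle -/
def Mx (β : V → B) (χ : V → Fin 3) (Q : Finset (Finset (Sym2 V))) (F : Finset (Sym2 V)) : Prop :=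
  Bun β χ Q ∧ bs Q ⊆ F ∧ ∀ v, (∀ e ∈ F, v ∈ e → e ∈ bs Q) ∨
    ((∀ e ∈ bs Q, v ∉ e) ∧ (F.filter fun e => v ∈ e).card ≤ 2)

theorem Mx.mono {β : V → B} {χ : V → Fin 3} {Q : Finset (Finset (Sym2 V))}
    {F F' : Finset (Sym2 V)} (h : Mx β χ Q F') (h1 : bs Q ⊆ F) (h2 : F ⊆ F') : Mx β χ Q F := by
  classical
  refine ⟨h.1, h1, fun v => ?_⟩
  rcases h.2.2 v with h3 | ⟨h3, h4⟩
  · exact Or.inl fun e he => h3 e (h2 he)
  · exact Or.inr ⟨h3, (Finset.card_le_card (Finset.filter_subset_filter _ h2)).trans h4⟩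

/-- a family of bundles in a system -/
theorem Mx.sub {β : V → B} {χ : V → Fin 3} {Q Q' : Finset (Finset (Sym2 V))}
    {F F' : Finset (Sym2 V)} (h : Mx β χ Q F) (hQ : Q' ⊆ Q) (h1 : bs Q' ⊆ F') (h2 : F' ⊆ F)
    (h3 : ∀ e ∈ F', e ∈ bs Q → e ∈ bs Q') : Mx β χ Q' F' := by
  classical
  refine ⟨h.1.mono hQ, h1, fun v => ?_⟩
  rcases h.2.2 v with h4 | ⟨h4, h5⟩
  · exact Or.inl fun e he hv => h3 e he (h4 e (h2 he) hv)
  · exact Or.inr ⟨fun e he => h4 e (bs_mono hQ he),
      (Finset.card_le_card (Finset.filter_subset_filter _ h2)).trans h5⟩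

/-- the ends of a bar which is in no bundle -/
theorem Mx.end {β : V → B} {χ : V → Fin 3} {Q : Finset (Finset (Sym2 V))}
    {F : Finset (Sym2 V)} (h : Mx β χ Q F) {e : Sym2 V} (he : e ∈ F) (hn : e ∉ bs Q) {v : V}
    (hv : v ∈ e) : ∀ e' ∈ bs Q, v ∉ e' := by
  rcases h.2.2 v with h1 | h1
  · exact absurd (h1 e he hv) hn
  · exact h1.1

/-- at most two bars at the ends of a bar which is in no bundle -/
theorem Mx.two {β : V → B} {χ : V → Fin 3} {Q : Finset (Finset (Sym2 V))}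
    {F : Finset (Sym2 V)} (h : Mx β χ Q F) {x : V} {e1 e2 : Sym2 V} (h1 : e1 ∈ F) (h2 : e2 ∈ F)
    (hb : e1 ∉ bs Q) (hne : e1 ≠ e2) (hx1 : x ∈ e1) (hx2 : x ∈ e2) :
    ∀ e ∈ F, x ∈ e → e = e1 ∨ e = e2 := by
  classical
  intro e he hx
  have h0 : (F.filter fun e => x ∈ e).card ≤ 2 := by
    rcases h.2.2 x with h5 | h5
    · exact absurd (h5 e1 h1 hx1) hb
    · convert h5.2
  have h3 : ({e1, e2} : Finset (Sym2 V)) ⊆ F.filter fun e => x ∈ e := by
    intro e' he'
    rcases Finset.mem_insert.1 he' with rfl | h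
    · exact Finset.mem_filter.2 ⟨h1, hx1⟩
    · rw [Finset.mem_singleton.1 h]
      exact Finset.mem_filter.2 ⟨h2, hx2⟩
  have h4 := Finset.eq_of_subset_of_card_le h3 (by
    rw [Finset.card_pair hne]
    exact h0)
  have h5 : e ∈ F.filter fun e => x ∈ e := Finset.mem_filter.2 ⟨he, hx⟩
  rw [← h4, Finset.mem_insert, Finset.mem_singleton] at h5
  exact h5

/-- a bar of a bundle inside a set of bodies -/
theorem bs_qi {β : V → B} {χ : V → Fin 3} {Q : Finset (Finset (Sym2 V))} (hQ : Bun β χ Q)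
    {C : Finset B} {x : Sym2 V} (hx : x ∈ bs Q) (hC : ∀ v ∈ x, β v ∈ C) : x ∈ bs (qi β Q C) := by
  obtain ⟨e, he, hxe⟩ := mem_bs.1 hx
  obtain ⟨b, b', hne, hb⟩ := hQ.1 e he
  obtain ⟨u, v, rfl, rfl, rfl⟩ := hb.br hxe
  exact mem_bs.2 ⟨e, (hb.mem_qi C).2 ⟨he, hC u (Sym2.mem_mk_left _ _),
    hC v (Sym2.mem_mk_right _ _)⟩, hxe⟩

open Classical in
/-- the crossing bundles -/
noncomputable def qc {B' : Type} (q : B → B') (β : V → B) (Q : Finset (Finset (Sym2 V))) :
    Finset (Finset (Sym2 V)) := Q.filter fun e => ∃ x ∈ e, x ∈ crs (q ∘ β) (bs Q)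

theorem mem_qc {B' : Type} {q : B → B'} {β : V → B} {Q : Finset (Finset (Sym2 V))}
    {e : Finset (Sym2 V)} : e ∈ qc q β Q ↔ e ∈ Q ∧ ∃ x ∈ e, x ∈ crs (q ∘ β) (bs Q) := by
  classical
  unfold qc
  rw [Finset.mem_filter]

theorem qc_ne {B' : Type} {q : B → B'} {β : V → B} {χ : V → Fin 3}
    {Q : Finset (Finset (Sym2 V))} {e : Finset (Sym2 V)} (he : e ∈ qc q β Q) {b b' : B}
    (hb : IsBd β χ b b' e) : q b ≠ q b' := by
  obtain ⟨h1, x, hx, hc⟩ := mem_qc.1 he
  obtain ⟨u, v, rfl, rfl, rfl⟩ := hb.br hx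
  exact (mem_crs'.1 hc).2

theorem IsBd.comp {B' : Type} (q : B → B') {β : V → B} {χ : V → Fin 3} {b b' : B}
    {e : Finset (Sym2 V)} (h : IsBd β χ b b' e) : IsBd (q ∘ β) χ (q b) (q b') e := by
  obtain ⟨f, g, h1, h2, h3, h4, h5⟩ := h
  exact ⟨f, g, h1, h2, fun k => congrArg q (h3 k), fun k => congrArg q (h4 k), h5⟩

theorem Bun.qc {B' : Type} (q : B → B') {β : V → B} {χ : V → Fin 3}
    {Q : Finset (Finset (Sym2 V))} (h : Bun β χ Q) : Bun (q ∘ β) χ (qc q β Q) := by
  refine ⟨fun e he => ?_, fun e he e' he' hne => h.2 e (mem_qc.1 he).1 e' (mem_qc.1 he').1 hne⟩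
  obtain ⟨b, b', -, hb⟩ := h.1 e (mem_qc.1 he).1
  exact ⟨q b, q b', qc_ne he hb, hb.comp q⟩

theorem bs_qc {B' : Type} (q : B → B') {β : V → B} {χ : V → Fin 3}
    {Q : Finset (Finset (Sym2 V))} (h : Bun β χ Q) : bs (qc q β Q) = crs (q ∘ β) (bs Q) := by
  ext x
  rw [mem_bs]
  constructor
  · rintro ⟨e, he, hx⟩
    obtain ⟨b, b', -, hb⟩ := h.1 e (mem_qc.1 he).1
    have h1 := qc_ne he hb
    obtain ⟨u, v, rfl, rfl, rfl⟩ := hb.br hx
    exact mem_crs'.2 ⟨mem_bs.2 ⟨e, (mem_qc.1 he).1, hx⟩, h1⟩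
  · intro hx
    obtain ⟨e, he, hxe⟩ := mem_bs.1 (mem_crs.1 hx).1
    exact ⟨e, mem_qc.2 ⟨he, x, hxe, hx⟩, hxe⟩

theorem Mx.crs {B' : Type} (q : B → B') {β : V → B} {χ : V → Fin 3}
    {Q : Finset (Finset (Sym2 V))} {F : Finset (Sym2 V)} (h : Mx β χ Q F) :
    Mx (q ∘ β) χ (qc q β Q) (BB.crs (q ∘ β) F) := by
  classical
  refine ⟨h.1.qc q, ?_, fun v => ?_⟩
  · rw [bs_qc q h.1]
    intro x hx
    rw [mem_crs] at hx ⊢
    exact ⟨h.2.1 hx.1, hx.2⟩
  · rw [bs_qc q h.1]
    rcases h.2.2 v with h4 | ⟨h4, h5⟩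
    · refine Or.inl fun e he hv => ?_
      rw [mem_crs] at he ⊢
      exact ⟨h4 e he.1 hv, he.2⟩
    · exact Or.inr ⟨fun e he => h4 e (crs_subset _ _ he),
        (Finset.card_le_card (Finset.filter_subset_filter _ (crs_subset _ F))).trans h5⟩

end defs

/-- the theorem for mixed systems with `N` bars -/
def PM (N : ℕ) : Prop := ∀ (V B : Type) [Fintype V] [Fintype B] (β : V → B) (χ : V → Fin 3)
  (Q : Finset (Finset (Sym2 V))) (F : Finset (Sym2 V)), F.card = N → Mx β χ Q F → Sparse β F →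
    gb β F + N = 6 * Fintype.card B

section nr

variable {V B : Type} [Fintype V] [Fintype B]

theorem sparse_of_NRM {N : ℕ} (IH : ∀ m < N, PM m) (β : V → B) (χ : V → Fin 3)
    (Q : Finset (Finset (Sym2 V))) (F : Finset (Sym2 V))
    (hM : Mx β χ Q F) (hN : F.card < N) (hloop : ∀ u v, s(u, v) ∈ F → β u ≠ β v)
    (hNR : ∀ b b', b ≠ b' → ∃ n ∈ GB β F, n b ≠ n b') : Sparse β F := by
  classical
  by_contra hcon
  unfold Sparse at hcon
  push Not at hcon
  obtain ⟨C0, hC0, hbad0⟩ := hcon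
  obtain ⟨C, hCS, hmin⟩ := Finset.exists_min_image
    ((univ : Finset (Finset B)).filter fun C => C.Nonempty ∧ 6 * C.card < (ins β F C).card + 6)
    Finset.card ⟨C0, Finset.mem_filter.2 ⟨Finset.mem_univ _, hC0, hbad0⟩⟩
  obtain ⟨-, hC, hbad⟩ := Finset.mem_filter.1 hCS
  have hlow : ∀ D : Finset B, D.Nonempty → D.card < C.card →
      (ins β F D).card + 6 ≤ 6 * D.card := by
    intro D hD hlt
    by_contra h
    push Not at h
    have := hmin D (Finset.mem_filter.2 ⟨Finset.mem_univ _, hD, h⟩)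
    omega
  have hCpos : 0 < C.card := Finset.card_pos.2 hC
  obtain ⟨Q1, F1, hF1, hM1, hF1c⟩ : ∃ Q1 F1, F1 ⊆ ins β F C ∧ Mx β χ Q1 F1 ∧
      F1.card = 6 * C.card - 6 := by
    have hQI := card_bs (hM.1.mono (qi_subset β Q C))
    have hsub : bs (qi β Q C) ⊆ ins β F C := by
      intro x hx
      obtain ⟨e, he, hxe⟩ := mem_bs.1 hx
      obtain ⟨h1, h2⟩ := mem_qi.1 he
      exact mem_ins.2 ⟨hM.2.1 (mem_bs.2 ⟨e, h1, hxe⟩), h2 x hxe⟩
    by_cases hT : (bs (qi β Q C)).card ≤ 6 * C.card - 6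
    · obtain ⟨F1, h1, h2, h3⟩ := Finset.exists_subsuperset_card_eq hsub hT
        (show 6 * C.card - 6 ≤ (ins β F C).card by omega)
      refine ⟨qi β Q C, F1, h2, ?_, h3⟩
      refine hM.sub (qi_subset β Q C) h1 (fun e he => (mem_ins.1 (h2 he)).1) fun e he hb => ?_
      exact bs_qi hM.1 hb (mem_ins.1 (h2 he)).2
    · obtain ⟨Q1, h1, h2⟩ := Finset.exists_subset_card_eq
        (show 2 * C.card - 2 ≤ (qi β Q C).card by omega)
      have h3 : Q1 ⊆ Q := h1.trans (qi_subset β Q C)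
      refine ⟨Q1, bs Q1, (bs_mono h1).trans hsub, ⟨hM.1.mono h3, subset_rfl,
        fun v => Or.inl fun e he _ => he⟩, ?_⟩
      rw [card_bs (hM.1.mono h3)]
      omega
  have hF1F : F1 ⊆ F := fun e he => (mem_ins.1 (hF1 he)).1
  have hsp1 : Sparse β F1 := by
    intro D hD
    have hsub : ins β F1 D ⊆ ins β F (D ∩ C) := by
      intro e he
      rw [mem_ins] at he ⊢
      refine ⟨hF1F he.1, fun v hv => Finset.mem_inter.2 ⟨he.2 v hv, ?_⟩⟩
      exact (mem_ins.1 (hF1 he.1)).2 v hv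
    have hle := Finset.card_le_card hsub
    have hDC : (D ∩ C).card ≤ D.card := Finset.card_le_card Finset.inter_subset_left
    have hDC' : (D ∩ C).card ≤ C.card := Finset.card_le_card Finset.inter_subset_right
    by_cases hne : (D ∩ C).Nonempty
    · by_cases hlt : (D ∩ C).card < C.card
      · have := hlow _ hne hlt
        omega
      · have h1 : (ins β F1 D).card ≤ F1.card :=
          Finset.card_le_card fun e he => (mem_ins.1 he).1
        omega
    · rw [Finset.not_nonempty_iff_eq_empty] at hne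
      have h1 : ins β F1 D = ∅ := by
        rw [Finset.eq_empty_iff_forall_notMem]
        intro e
        induction e using Sym2.ind with
        | _ u v =>
          intro he
          have h2 := hsub he
          rw [hne, mem_ins'] at h2
          exact absurd h2.2.1 (Finset.notMem_empty _)
      have hDpos : 0 < D.card := Finset.card_pos.2 hD
      rw [h1, Finset.card_empty]
      omega
  have hIH := IH F1.card (lt_of_le_of_lt (Finset.card_le_card hF1F) hN) V B β χ Q1 F1 rfl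
    hM1 hsp1
  have hC2 : 1 < C.card := by
    by_contra h
    have h1 : C.card = 1 := by omega
    obtain ⟨c, rfl⟩ := Finset.card_eq_one.1 h1
    have h2 : ins β F {c} = ∅ := by
      rw [Finset.eq_empty_iff_forall_notMem]
      intro e
      induction e using Sym2.ind with
      | _ u v =>
        intro he
        rw [mem_ins'] at he
        exact hloop u v he.1 ((Finset.mem_singleton.1 he.2.1).trans
          (Finset.mem_singleton.1 he.2.2).symm)
    rw [h2, Finset.card_empty, Finset.card_singleton] at hbad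
    omega
  obtain ⟨b, hb, b', hb', hbb⟩ := Finset.one_lt_card.1 hC2
  obtain ⟨n, hn, hne⟩ := hNR b b' hbb
  apply hne
  let q : B → Option {b : B // b ∉ C} := fun b => if h : b ∉ C then some ⟨b, h⟩ else none
  have hqC : ∀ b ∈ C, q b = none := fun b hb => by
    change (if h : b ∉ C then some (⟨b, h⟩ : {b : B // b ∉ C}) else none) = none
    rw [dif_neg (not_not.2 hb)]
  have hq : Function.Surjective q := by
    intro c
    match c with
    | none => exact ⟨b, hqC b hb⟩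
    | some ⟨a, ha⟩ =>
      refine ⟨a, ?_⟩
      change (if h : a ∉ C then some (⟨a, h⟩ : {b : B // b ∉ C}) else none) = _
      rw [dif_pos ha]
  have htop : GB (q ∘ β) F1 = ⊤ := by
    rw [eq_top_iff]
    intro m _ u v huv
    have h1 := mem_ins'.1 (hF1 huv)
    have h2 : (q ∘ β) u = (q ∘ β) v := (hqC _ h1.2.1).trans (hqC _ h1.2.2).symm
    rw [h2, sub_self, pr_zero]
  have hcardq : Fintype.card (Option {b : B // b ∉ C}) = Fintype.card B - C.card + 1 := by
    rw [Fintype.card_option, Fintype.card_subtype_compl]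
    simp
  have hCB : C.card ≤ Fintype.card B := Finset.card_le_univ C
  have h1 : (GB (q ∘ β) F1).map (pl q) = GB β F1 := by
    apply Submodule.eq_of_le_of_finrank_eq
    · rintro _ ⟨m, hm, rfl⟩
      exact (pl_mem q).1 hm
    · rw [← (Submodule.equivMapOfInjective (pl q) (pl_inj hq) _).finrank_eq, htop,
        finrank_top', hcardq]
      unfold gb at hIH
      omega
  have h2 : n ∈ GB β F1 := BM_anti hF1F _ hn
  rw [← h1] at h2
  obtain ⟨m, -, rfl⟩ := h2
  change m (q b) = m (q b')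
  rw [hqC b hb, hqC b' hb']

theorem sparse_mtM {N : ℕ} (IH : ∀ m < N, PM m) (β : V → B) (χ : V → Fin 3)
    (Q : Finset (Finset (Sym2 V))) (F : Finset (Sym2 V))
    (hM : Mx β χ Q F) (hN : F.card < N) :
    Sparse (Quotient.mk (mt β F) ∘ β) (crs (Quotient.mk (mt β F) ∘ β) F) := by
  classical
  exact sparse_of_NRM IH _ χ _ _ (hM.crs (Quotient.mk (mt β F)))
    (lt_of_le_of_lt (Finset.card_le_card (crs_subset _ F)) hN)
    (fun u v huv => (mem_crs'.1 huv).2) (NR_mt β F)

/-- the ends of a bar do not move together without the bar -/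
theorem factAM {N : ℕ} (IH : ∀ m < N, PM m) (β : V → B) (χ : V → Fin 3)
    (Q : Finset (Finset (Sym2 V))) (F : Finset (Sym2 V))
    (hM : Mx β χ Q F) (hN : F.card ≤ N) (hsp : Sparse β F) [DecidableEq V] {x y : V}
    (he : s(x, y) ∈ F) (hnb : s(x, y) ∉ bs Q) :
    ∃ n ∈ GB β (F.erase s(x, y)), n (β x) ≠ n (β y) := by
  classical
  by_contra hcon
  push Not at hcon
  set F' := F.erase s(x, y) with hF'
  have hsub : F' ⊆ F := Finset.erase_subset _ _
  have hM' : Mx β χ Q F' := hM.mono (fun e he' => Finset.mem_erase.2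
    ⟨fun h => hnb (h ▸ he'), hM.2.1 he'⟩) hsub
  have hcard : F'.card + 1 = F.card := Finset.card_erase_add_one he
  have h1 := sparse_mtM IH β χ Q F' hM' (by omega)
  have h2 := gb_mt β F'
  have h3 := IH (crs (Quotient.mk (mt β F') ∘ β) F').card
    (lt_of_le_of_lt (Finset.card_le_card (crs_subset _ F')) (by omega)) V (Quotient (mt β F'))
    (Quotient.mk (mt β F') ∘ β) χ _ _ rfl (hM'.crs (Quotient.mk (mt β F'))) h1
  have h4 := IH F'.card (by omega) V B β χ Q F' rfl hM' (hsp.mono hsub)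
  have h5 := noncross_le β F hsp (Quotient.mk (mt β F')) Quotient.mk_surjective
  have h6 : crs (Quotient.mk (mt β F') ∘ β) F = crs (Quotient.mk (mt β F') ∘ β) F' := by
    ext e
    rw [mem_crs, mem_crs, hF', Finset.mem_erase]
    constructor
    · rintro ⟨h7, h8⟩
      refine ⟨⟨?_, h7⟩, h8⟩
      rintro rfl
      apply h8
      have h9 : (Quotient.mk (mt β F') ∘ β) x = (Quotient.mk (mt β F') ∘ β) y :=
        Quotient.sound (fun n hn => hcon n hn)
      intro u hu v hv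
      rcases Sym2.mem_iff.1 hu with rfl | rfl <;> rcases Sym2.mem_iff.1 hv with rfl | rfl
      · rfl
      · exact h9
      · exact h9.symm
      · rfl
    · rintro ⟨⟨-, h7⟩, h8⟩
      exact ⟨h7, h8⟩
  rw [h6] at h5
  omega

end nr

end Pool.Agent.Y530.TB
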