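import Mathlib
import Pool.Agent.Y530.TB.MixStep

/-!
# Mixed systems of bundles and bars: the rank
-/

set_option autoImplicit false

namespace Pool.Agent.Y530.TB

open Finset Module Pool.Agent.W824.BJ Pool.Agent.Y530.BB

section main

variable {V B : Type} [Fintype V] [Fintype B]

/-- the step for two bars, in terms of the whole system -/
theorem stepTwoM' {N : ℕ} (IH : ∀ m < N, PM m) (β : V → B) (χ : V → Fin 3)
    (Q : Finset (Finset (Sym2 V))) (F : Finset (Sym2 V)) {x y z : V}
    (hN : F.card = N) (hyz : y ≠ z) (hM : Mx β χ Q F) (hsp : Sparse β F)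
    (h1 : s(x, y) ∈ F) (hnb : s(x, y) ∉ bs Q) (h2 : s(x, z) ∈ F)
    (hy : ∀ e ∈ F, y ∈ e → e = s(x, y)) :
    gb β F + N = 6 * Fintype.card B := by
  classical
  have hne : s(x, y) ≠ s(x, z) := by
    intro h
    rcases Sym2.eq_iff.1 h with ⟨-, h⟩ | ⟨ha, hb⟩
    · exact hyz h
    · exact hyz (hb.trans ha)
  have hx := hM.two h1 h2 hnb hne (Sym2.mem_mk_left _ _) (Sym2.mem_mk_left _ _)
  have hxb := hM.end h1 hnb (Sym2.mem_mk_left _ _)
  set F0 := (F.erase s(x, y)).erase s(x, z) with hF0
  have hb : bs Q ⊆ F0 := by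
    intro e he
    rw [hF0, Finset.mem_erase, Finset.mem_erase]
    exact ⟨fun h => hxb e he (h ▸ Sym2.mem_mk_left _ _),
      fun h => hxb e he (h ▸ Sym2.mem_mk_left _ _), hM.2.1 he⟩
  have e1 : insert s(x, z) F0 = F.erase s(x, y) :=
    Finset.insert_erase (Finset.mem_erase.2 ⟨hne.symm, h2⟩)
  have e2 : insert s(x, y) (insert s(x, z) F0) = F := by
    rw [e1]
    exact Finset.insert_erase h1
  have c1 : (F.erase s(x, y)).card + 1 = F.card := Finset.card_erase_add_one h1
  have c2 : F0.card + 1 = (F.erase s(x, y)).card :=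
    Finset.card_erase_add_one (Finset.mem_erase.2 ⟨hne.symm, h2⟩)
  have h := stepTwoM IH β χ Q F0 hb (x := x) (y := y) (z := z) (Finset.notMem_erase _ _)
    (by rw [e1]; exact Finset.notMem_erase _ _) (by omega) hyz (by rw [e2]; exact hM)
    (by rw [e2]; exact hsp)
    (by
      intro e he hxe
      rw [hF0, Finset.mem_erase, Finset.mem_erase] at he
      rcases hx e he.2.2 hxe with h | h
      · exact he.2.1 h
      · exact he.1 h)
    (by
      intro e he hye
      rw [hF0, Finset.mem_erase, Finset.mem_erase] at he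
      exact he.2.1 (hy e he.2.2 hye))
  rw [e2] at h
  exact h

/-- the step for three bars, in terms of the whole system -/
theorem stepThreeM' {N : ℕ} (IH : ∀ m < N, PM m) (β : V → B) (χ : V → Fin 3)
    (Q : Finset (Finset (Sym2 V))) (F : Finset (Sym2 V))
    {x y z u o : V} (hN : F.card = N) (hyz : y ≠ z) (hxu : x ≠ u) (hM : Mx β χ Q F)
    (hsp : Sparse β F) (h1 : s(x, y) ∈ F) (hnb : s(x, y) ∉ bs Q) (h2 : s(x, z) ∈ F)
    (h3 : s(y, u) ∈ F)
    (ho : ∀ e ∈ F, o ∉ e) (hβ : β o = β x) :
    gb β F + N = 6 * Fintype.card B := by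
  classical
  have hxy : x ≠ y := fun h => hsp.ne h1 (by rw [h])
  have hxz : x ≠ z := fun h => hsp.ne h2 (by rw [h])
  have hyu : y ≠ u := fun h => hsp.ne h3 (by rw [h])
  have hox : o ≠ x := fun h => ho _ h1 (by rw [h]; exact Sym2.mem_mk_left _ _)
  have hoy : o ≠ y := fun h => ho _ h1 (by rw [h]; exact Sym2.mem_mk_right _ _)
  have hoz : o ≠ z := fun h => ho _ h2 (by rw [h]; exact Sym2.mem_mk_right _ _)
  have hou : o ≠ u := fun h => ho _ h3 (by rw [h]; exact Sym2.mem_mk_right _ _)
  have n12 : s(x, y) ≠ s(x, z) := by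
    intro h
    rcases Sym2.eq_iff.1 h with ⟨-, h⟩ | ⟨ha, hb⟩
    · exact hyz h
    · exact hyz (hb.trans ha)
  have n13 : s(x, y) ≠ s(y, u) := by
    intro h
    rcases Sym2.eq_iff.1 h with ⟨h, -⟩ | ⟨h, -⟩
    · exact hxy h
    · exact hxu h
  have n23 : s(x, z) ≠ s(y, u) := by
    intro h
    rcases Sym2.eq_iff.1 h with ⟨h, -⟩ | ⟨h, -⟩
    · exact hxy h
    · exact hxu h
  have hx := hM.two h1 h2 hnb n12 (Sym2.mem_mk_left _ _) (Sym2.mem_mk_left _ _)
  have hy := hM.two h1 h3 hnb n13 (Sym2.mem_mk_right _ _) (Sym2.mem_mk_left _ _)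
  have hxb := hM.end h1 hnb (Sym2.mem_mk_left _ _)
  have hyb := hM.end h1 hnb (Sym2.mem_mk_right _ _)
  have hnb2 : s(x, z) ∉ bs Q := fun h => hxb _ h (Sym2.mem_mk_left _ _)
  have hnb3 : s(y, u) ∉ bs Q := fun h => hyb _ h (Sym2.mem_mk_left _ _)
  have hzb := hM.end h2 hnb2 (Sym2.mem_mk_right _ _)
  set F0 := ((F.erase s(x, y)).erase s(x, z)).erase s(y, u) with hF0
  have hb : bs Q ⊆ F0 := by
    intro e he
    rw [hF0, Finset.mem_erase, Finset.mem_erase, Finset.mem_erase]
    exact ⟨fun h => hnb3 (h ▸ he), fun h => hnb2 (h ▸ he), fun h => hnb (h ▸ he), hM.2.1 he⟩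
  have i2 : s(x, z) ∈ F.erase s(x, y) := Finset.mem_erase.2 ⟨n12.symm, h2⟩
  have i3 : s(y, u) ∈ (F.erase s(x, y)).erase s(x, z) :=
    Finset.mem_erase.2 ⟨n23.symm, Finset.mem_erase.2 ⟨n13.symm, h3⟩⟩
  have e0 : insert s(y, u) F0 = (F.erase s(x, y)).erase s(x, z) := Finset.insert_erase i3
  have e1 : insert s(x, z) (insert s(y, u) F0) = F.erase s(x, y) := by
    rw [e0]
    exact Finset.insert_erase i2
  have e2 : insert s(x, y) (insert s(x, z) (insert s(y, u) F0)) = F := by
    rw [e1]
    exact Finset.insert_erase h1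
  have c1 : (F.erase s(x, y)).card + 1 = F.card := Finset.card_erase_add_one h1
  have c2 : ((F.erase s(x, y)).erase s(x, z)).card + 1 = (F.erase s(x, y)).card :=
    Finset.card_erase_add_one i2
  have c3 : F0.card + 1 = ((F.erase s(x, y)).erase s(x, z)).card :=
    Finset.card_erase_add_one i3
  have m0 : ∀ {e}, e ∈ F0 → e ≠ s(x, y) ∧ e ≠ s(x, z) ∧ e ≠ s(y, u) ∧ e ∈ F := by
    intro e he
    rw [hF0, Finset.mem_erase, Finset.mem_erase, Finset.mem_erase] at he
    exact ⟨he.2.2.1, he.2.1, he.1, he.2.2.2⟩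
  have hx0 : ∀ e ∈ F0, x ∉ e := by
    intro e he hxe
    obtain ⟨a, b, -, d⟩ := m0 he
    rcases hx e d hxe with h | h
    · exact a h
    · exact b h
  have hy0 : ∀ e ∈ F0, y ∉ e := by
    intro e he hye
    obtain ⟨a, -, c, d⟩ := m0 he
    rcases hy e d hye with h | h
    · exact a h
    · exact c h
  have ho0 : ∀ e ∈ F0, o ∉ e := fun e he => ho e (m0 he).2.2.2
  -- the split system
  set F1 := insert s(o, z) F0 with hF1
  have j1 : s(o, z) ∉ F0 := fun h => ho0 _ h (Sym2.mem_mk_left _ _)
  have j2 : s(y, u) ∉ F1 := by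
    rw [hF1, Finset.mem_insert, not_or]
    refine ⟨?_, fun h => (m0 h).2.2.1 rfl⟩
    intro h
    exact ho _ h3 (by rw [h]; exact Sym2.mem_mk_left _ _)
  have j3 : s(y, x) ∉ insert s(y, u) F1 := by
    rw [hF1, Finset.mem_insert, Finset.mem_insert, not_or, not_or]
    refine ⟨?_, ?_, fun h => (m0 h).1 Sym2.eq_swap⟩
    · rw [Sym2.eq_swap]
      exact n13
    · intro h
      exact ho _ h1 (by rw [Sym2.eq_swap, h]; exact Sym2.mem_mk_left _ _)
  have hset : insert s(y, x) (insert s(y, u) F1) =
      insert s(x, y) (insert s(o, z) (insert s(y, u) F0)) := by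
    rw [hF1, Finset.insert_comm s(y, u) s(o, z), Sym2.eq_swap]
  have hset' : insert s(x, y) (insert s(o, z) (insert s(y, u) F0)) =
      insert s(o, z) (F.erase s(x, z)) := by
    ext e
    have h5 : F = insert s(x, y) (insert s(x, z) (insert s(y, u) F0)) := e2.symm
    have h6 : e ∈ F.erase s(x, z) ↔ e ≠ s(x, z) ∧ e ∈ F := Finset.mem_erase
    rw [Finset.mem_insert, Finset.mem_insert, Finset.mem_insert, Finset.mem_insert, h6]
    constructor
    · rintro (rfl | rfl | rfl | h)
      · exact Or.inr ⟨n12, h1⟩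
      · exact Or.inl rfl
      · exact Or.inr ⟨n23.symm, h3⟩
      · exact Or.inr ⟨(m0 h).2.1, (m0 h).2.2.2⟩
    · rintro (rfl | ⟨h6, h7⟩)
      · exact Or.inr (Or.inl rfl)
      · rw [h5, Finset.mem_insert, Finset.mem_insert, Finset.mem_insert] at h7
        rcases h7 with rfl | rfl | rfl | h8
        · exact Or.inl rfl
        · exact absurd rfl h6
        · exact Or.inr (Or.inr (Or.inl rfl))
        · exact Or.inr (Or.inr (Or.inr h8))
  have hM' : Mx β χ Q (insert s(o, z) (F.erase s(x, z))) := by
    refine ⟨hM.1, ?_, fun v => ?_⟩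
    · intro e he
      exact Finset.mem_insert_of_mem (Finset.mem_erase.2 ⟨fun h => hnb2 (h ▸ he), hM.2.1 he⟩)
    · by_cases hv1 : ∀ e ∈ F, v ∈ e → e ∈ bs Q
      · by_cases hvo : v = o
        · subst hvo
          refine Or.inr ⟨fun e he => ho e (hM.2.1 he), ?_⟩
          rw [Finset.filter_insert]
          have h5 : (F.erase s(x, z)).filter (fun e => v ∈ e) = ∅ := by
            rw [Finset.filter_eq_empty_iff]
            intro e he
            exact ho e (Finset.mem_of_mem_erase he)
          rw [if_pos (Sym2.mem_mk_left _ _), h5]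
          simp
        · left
          intro e he hve
          rcases Finset.mem_insert.1 he with rfl | he
          · rcases Sym2.mem_iff.1 hve with h | h
            · exact absurd h hvo
            · rw [h] at hv1
              exact absurd (hv1 _ h2 (Sym2.mem_mk_right _ _)) hnb2
          · exact hv1 e (Finset.mem_of_mem_erase he) hve
      · obtain ⟨hvb, hv2⟩ := (hM.2.2 v).resolve_left hv1
        refine Or.inr ⟨hvb, ?_⟩
        rw [Finset.filter_insert]
        have hsub : (F.erase s(x, z)).filter (fun e => v ∈ e) ⊆ F.filter fun e => v ∈ e :=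
          Finset.filter_subset_filter _ (Finset.erase_subset _ _)
        have h7 : (F.filter fun e => v ∈ e).card ≤ 2 := by
          convert hv2
        split_ifs with hv
        · refine (Finset.card_insert_le _ _).trans ?_
          rcases Sym2.mem_iff.1 hv with rfl | rfl
          · have h5 : (F.erase s(x, z)).filter (fun e => v ∈ e) = ∅ := by
              rw [Finset.filter_eq_empty_iff]
              intro e he
              exact ho e (Finset.mem_of_mem_erase he)
            rw [h5]
            simp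
          · have h5 : (F.erase s(x, v)).filter (fun e => v ∈ e) ⊂ F.filter fun e => v ∈ e := by
              rw [Finset.ssubset_iff_of_subset hsub]
              refine ⟨s(x, v), Finset.mem_filter.2 ⟨h2, Sym2.mem_mk_right _ _⟩, ?_⟩
              intro h
              exact Finset.notMem_erase _ _ (Finset.mem_filter.1 h).1
            have h6 := Finset.card_lt_card h5
            omega
        · exact (Finset.card_le_card hsub).trans h7
  have hsp' : Sparse β (insert s(o, z) (F.erase s(x, z))) := by
    intro C hC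
    refine le_trans (Nat.add_le_add_right ?_ 6) (hsp C hC)
    by_cases hzC : s(x, z) ∈ ins β F C
    · have h5 : ins β (insert s(o, z) (F.erase s(x, z))) C ⊆
          insert s(o, z) ((ins β F C).erase s(x, z)) := by
        intro e he
        rw [mem_ins, Finset.mem_insert, Finset.mem_erase] at he
        rw [Finset.mem_insert, Finset.mem_erase, mem_ins]
        rcases he.1 with h | h
        · exact Or.inl h
        · exact Or.inr ⟨h.1, h.2, he.2⟩
      have h6 := (Finset.card_le_card h5).trans (Finset.card_insert_le _ _)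
      have h7 := Finset.card_erase_add_one hzC
      omega
    · apply Finset.card_le_card
      intro e he
      rw [mem_ins, Finset.mem_insert, Finset.mem_erase] at he
      rw [mem_ins]
      rcases he.1 with h | h
      · exfalso
        apply hzC
        rw [mem_ins']
        subst h
        refine ⟨h2, ?_, he.2 z (Sym2.mem_mk_right _ _)⟩
        rw [← hβ]
        exact he.2 o (Sym2.mem_mk_left _ _)
      · exact ⟨h.2, he.2⟩
  have hP2 := stepTwoM IH β χ Q F1 (hb.trans (Finset.subset_insert _ _)) (x := y) (y := x)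
    (z := u) j2 j3 (by rw [hF1, Finset.card_insert_of_notMem j1]; omega) hxu
    (by rw [hset, hset']; exact hM') (by rw [hset, hset']; exact hsp')
    (by
      intro e he
      rw [hF1, Finset.mem_insert] at he
      rcases he with rfl | he
      · intro h
        rcases Sym2.mem_iff.1 h with h | h
        · exact hoy h.symm
        · exact hyz h
      · exact hy0 e he)
    (by
      intro e he
      rw [hF1, Finset.mem_insert] at he
      rcases he with rfl | he
      · intro h
        rcases Sym2.mem_iff.1 h with h | h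
        · exact hox h.symm
        · exact hxz h
      · exact hx0 e he)
  rw [hset] at hP2
  have h := stepThreeM IH β χ Q F0 hb (x := x) (y := y) (z := z) (u := u) (o := o)
    (Finset.notMem_erase _ _) (by rw [e0]; exact Finset.notMem_erase _ _)
    (by rw [e1]; exact Finset.notMem_erase _ _) (by omega) hyz hxu (by rw [e2]; exact hM)
    (by rw [e2]; exact hsp) hx0 hy0
    (by
      rintro rfl e he hze
      obtain ⟨-, b, c, d⟩ := m0 he
      rcases hM.two h2 h3 hnb2 n23 (Sym2.mem_mk_right _ _) (Sym2.mem_mk_right _ _) e d hze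
        with h | h
      · exact b h
      · exact c h)
    hβ hP2
  rw [e2] at h
  exact h


theorem br3_mp {V' : Type} (j : V ↪ V') (f g : Fin 3 → V) :
    mpF j (br3 f g) = br3 (fun k => j (f k)) (fun k => j (g k)) := by
  classical
  ext x
  rw [mem_br3]
  constructor
  · intro h
    obtain ⟨e0, h0, rfl⟩ := mem_mpF' h
    obtain ⟨k, rfl⟩ := mem_br3.1 h0
    exact ⟨k, (Sym2.map_mk ..).symm⟩
  · rintro ⟨k, rfl⟩
    exact mem_mpF.2 (mem_br3.2 ⟨k, rfl⟩)

theorem mpF_inj {V' : Type} (j : V ↪ V') : Function.Injective (mpF j) := by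
  intro e e' h
  exact Finset.map_injective _ h

/-- the image of a family of bundles -/
def mpQ {V' : Type} (j : V ↪ V') (Q : Finset (Finset (Sym2 V))) : Finset (Finset (Sym2 V')) :=
  Q.map ⟨mpF j, mpF_inj j⟩

theorem mem_mpQ {V' : Type} {j : V ↪ V'} {Q : Finset (Finset (Sym2 V))}
    {e : Finset (Sym2 V')} : e ∈ mpQ j Q ↔ ∃ e0 ∈ Q, mpF j e0 = e := by
  unfold mpQ
  rw [Finset.mem_map]
  rfl

theorem bs_mp {V' : Type} (j : V ↪ V') (Q : Finset (Finset (Sym2 V))) :
    bs (mpQ j Q) = mpF j (bs Q) := by
  ext x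
  rw [mem_bs]
  constructor
  · rintro ⟨e, he, hx⟩
    obtain ⟨e0, h0, rfl⟩ := mem_mpQ.1 he
    obtain ⟨x0, hx0, rfl⟩ := mem_mpF' hx
    exact Finset.mem_map.2 ⟨x0, mem_bs.2 ⟨e0, h0, hx0⟩, rfl⟩
  · intro hx
    obtain ⟨x0, hx0, rfl⟩ := mem_mpF' hx
    obtain ⟨e, he, hxe⟩ := mem_bs.1 hx0
    exact ⟨mpF j e, mem_mpQ.2 ⟨e, he, rfl⟩, Finset.mem_map.2 ⟨x0, hxe, rfl⟩⟩

theorem Mx.mp {V' : Type} (j : V ↪ V') (β' : V' → B) (χ' : V' → Fin 3)
    {Q : Finset (Finset (Sym2 V))} {F : Finset (Sym2 V)} (h : Mx (β' ∘ j) (χ' ∘ j) Q F) :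
    Mx β' χ' (mpQ j Q) (mpF j F) := by
  classical
  refine ⟨⟨?_, ?_⟩, ?_, ?_⟩
  · intro e he
    obtain ⟨e0, h0, rfl⟩ := mem_mpQ.1 he
    obtain ⟨b, b', hne, f, g, h1, h2, h3, h4, rfl⟩ := h.1.1 e0 h0
    exact ⟨b, b', hne, fun k => j (f k), fun k => j (g k), h1, h2, h3, h4, br3_mp j f g⟩
  · intro e he e' he' hne
    obtain ⟨e0, h0, rfl⟩ := mem_mpQ.1 he
    obtain ⟨e0', h0', rfl⟩ := mem_mpQ.1 he'
    have h5 := h.1.2 e0 h0 e0' h0' (fun h => hne (by rw [h]))
    unfold mpF
    exact (Finset.disjoint_map _).2 h5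
  · rw [bs_mp]
    exact Finset.map_subset_map.2 h.2.1
  · intro v
    by_cases hv : ∃ w, j w = v
    · obtain ⟨w, rfl⟩ := hv
      rcases h.2.2 w with h1 | ⟨h1, h2⟩
      · left
        intro e he hwe
        obtain ⟨e0, h0, rfl⟩ := mem_mpF' he
        rw [bs_mp]
        obtain ⟨a, ha, haw⟩ := Sym2.mem_map.1 hwe
        rw [j.injective haw] at ha
        exact Finset.mem_map.2 ⟨e0, h1 e0 h0 ha, rfl⟩
      · right
        refine ⟨?_, ?_⟩
        · intro e he hwe
          rw [bs_mp] at he
          obtain ⟨e0, h0, rfl⟩ := mem_mpF' he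
          obtain ⟨a, ha, haw⟩ := Sym2.mem_map.1 hwe
          rw [j.injective haw] at ha
          exact h1 e0 h0 ha
        · unfold mpF
          rw [Finset.filter_map, Finset.card_map]
          refine le_trans (Finset.card_le_card ?_) h2
          intro e he
          rw [Finset.mem_filter] at he ⊢
          refine ⟨he.1, ?_⟩
          have h5 : j w ∈ Sym2.map j e := he.2
          obtain ⟨a, ha, haw⟩ := Sym2.mem_map.1 h5
          rw [← j.injective haw]
          exact ha
    · left
      intro e he hve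
      obtain ⟨e0, h0, rfl⟩ := mem_mpF' he
      obtain ⟨a, ha, haw⟩ := Sym2.mem_map.1 hve
      exact absurd ⟨a, haw⟩ hv

/-- a sparse family of bundles -/
theorem sp2_of {β : V → B} {χ : V → Fin 3} {Q : Finset (Finset (Sym2 V))} (hQ : Bun β χ Q)
    {F : Finset (Sym2 V)} (hF : bs Q ⊆ F) (h : Sparse β F) : Sp2 β Q := by
  intro C hC
  have h1 := h C hC
  have h2 : bs (qi β Q C) ⊆ ins β F C := by
    intro x hx
    obtain ⟨e, he, hxe⟩ := mem_bs.1 hx
    obtain ⟨h1, h2⟩ := mem_qi.1 he
    exact mem_ins.2 ⟨hF (mem_bs.2 ⟨e, h1, hxe⟩), h2 x hxe⟩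
  have h3 := Finset.card_le_card h2
  rw [card_bs (hQ.mono (qi_subset β Q C))] at h3
  omega

/-- **The rank of a sparse mixed system** of bundles and bars. -/
theorem all_PM (hPQ : ∀ N, PQ N) : ∀ N, PM N := by
  intro N
  induction N using Nat.strong_induction_on with
  | _ N IH =>
    intro V B _ _ β χ Q F hN hM hsp
    classical
    by_cases hall : F ⊆ bs Q
    · have h1 : F = bs Q := Finset.Subset.antisymm hall hM.2.1
      have h2 := hPQ Q.card V B β χ Q hM.1 rfl (sp2_of hM.1 hM.2.1 hsp)
      have h3 := card_bs hM.1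
      rw [← h1] at h2 h3
      omega
    · rw [Finset.subset_iff] at hall
      push Not at hall
      obtain ⟨e, he, hnb⟩ := hall
      induction e using Sym2.ind with
      | _ x y =>
        have hxy : x ≠ y := fun h => hsp.ne he (by rw [h])
        by_cases hx : ∃ z, z ≠ y ∧ s(x, z) ∈ F
        · obtain ⟨z, hzy, hz⟩ := hx
          by_cases hy : ∃ u, u ≠ x ∧ s(y, u) ∈ F
          · obtain ⟨u, hux, hu⟩ := hy
            set j : V ↪ Option V := Function.Embedding.some with hj
            set β' : Option V → B := fun a => a.elim (β x) β with hβ'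
            set χ' : Option V → Fin 3 := fun a => a.elim 0 χ with hχ'
            have hβj : β' ∘ j = β := rfl
            have hχj : χ' ∘ j = χ := rfl
            have hM2 : Mx β' χ' (mpQ j Q) (mpF j F) :=
              Mx.mp j β' χ' (by rw [hβj, hχj]; exact hM)
            have h := stepThreeM' IH β' χ' (mpQ j Q) (mpF j F) (x := j x) (y := j y)
              (z := j z) (u := j u)
              (o := none) (by unfold mpF; rw [Finset.card_map, hN])
              (fun h => hzy (j.injective h).symm) (fun h => hux (j.injective h).symm)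
              hM2 (sparse_mp (by rw [hβj]; exact hsp)) (mem_mpF.2 he)
              (by
                rw [bs_mp]
                intro h
                exact hnb (mem_mpF.1 h)) (mem_mpF.2 hz)
              (mem_mpF.2 hu)
              (by
                intro e he' hn
                obtain ⟨e0, -, rfl⟩ := mem_mpF' he'
                obtain ⟨a, -, ha⟩ := Sym2.mem_map.1 hn
                cases ha) rfl
            rw [gb_mp, hβj] at h
            exact h
          · push Not at hy
            refine stepTwoM' IH β χ Q F (x := x) (y := y) (z := z) hN hzy.symm hM hsp he hnb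
              hz ?_
            rintro e he' ⟨w, rfl⟩
            by_cases hw : w = x
            · rw [hw, Sym2.eq_swap]
            · exact absurd he' (hy w hw)
        · push Not at hx
          have hx' : ∀ e ∈ F, x ∈ e → e = s(x, y) := by
            rintro e he' ⟨w, rfl⟩
            by_cases hw : w = y
            · rw [hw]
            · exact absurd he' (hx w hw)
          by_cases hy : ∃ u, u ≠ x ∧ s(y, u) ∈ F
          · obtain ⟨u, hux, hu⟩ := hy
            refine stepTwoM' IH β χ Q F (x := y) (y := x) (z := u) hN hux.symm hM hsp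
              (by rw [Sym2.eq_swap]; exact he) (by rw [Sym2.eq_swap]; exact hnb) hu ?_
            intro e he' hxe
            rw [hx' e he' hxe, Sym2.eq_swap]
          · push Not at hy
            refine stepOneM IH β χ Q F hN hM hsp he hnb hx' ?_
            rintro e he' ⟨w, rfl⟩
            by_cases hw : w = x
            · rw [hw, Sym2.eq_swap]
            · exact absurd he' (hy w hw)

/-- the rank of a mixed system: equality for the partition into the classes of bodies which move
together -/
theorem mix_upper (hPQ : ∀ N, PQ N) (β : V → B) (χ : V → Fin 3) (Q : Finset (Finset (Sym2 V)))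
    (F : Finset (Sym2 V)) (hM : Mx β χ Q F) :
    ∃ r : Setoid B, 6 * Nat.card (Quotient r) = gb β F + (crs (Quotient.mk r ∘ β) F).card := by
  classical
  refine ⟨mt β F, ?_⟩
  have h1 := sparse_mtM (N := F.card + 1) (fun m _ => all_PM hPQ m) β χ Q F hM (by omega)
  have h2 := all_PM hPQ _ V (Quotient (mt β F)) (Quotient.mk (mt β F) ∘ β) χ _ _ rfl
    (hM.crs (Quotient.mk (mt β F))) h1
  rw [gb_mt] at h2
  rw [Nat.card_eq_fintype_card]
  omega

end main

end Pool.Agent.Y530.TB
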