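import Pool.Agent.Y435.TB.NumDefs

/-!
# Four bodies: eliminations
-/

set_option autoImplicit false

namespace Pool.Agent.Y530.TB

open Pool.Agent.Y435.TB

theorem chk0 : ∀ b c : Fin 6, elim 10007 18 (resid 10007 (Mx (pm 0) (pm b) (pm c))) = true := by
  decide +kernel

end Pool.Agent.Y530.TB
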