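import Pool.Agent.Y530.TB.Stm
import Pool.Agent.Y530.TB.Chk0
import Pool.Agent.Y530.TB.Chk1
import Pool.Agent.Y530.TB.Chk2
import Pool.Agent.Y530.TB.Chk3
import Pool.Agent.Y530.TB.Chk4
import Pool.Agent.Y530.TB.Chk5

/-!
# Four bodies, numerical statement (copy of helper435's file `Y435/TB/Num.lean`, with the
eliminations in six modules)
-/

set_option autoImplicit false

namespace Pool.Agent.Y530.TB

open Finset Pool.Agent.W824.BJ Pool.Agent.Y530.BB Pool.Agent.Y435.TB

/-- the rational points -/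
def PR (a : Fin 4) (k : Fin 3) (c : Fin 4) : ℚ := (PZ a k c : ℚ)

theorem sum_plu (n : Fin 6 → ℚ) (X Y : Fin 4 → ℤ) :
    ∑ c, ((plu X Y c : ℤ) : ℚ) * n c = pr n (fun i => (X i : ℚ)) (fun i => (Y i : ℚ)) := by
  simp only [Fin.sum_univ_six, plu, pr]
  simp
  ring

theorem row (σ τ ρ : Fin 3 → Fin 3) (n : Fin 4 → Fin 6 → ℚ) (t : Fin 6) (k : Fin 3) :
    ∑ j, (Mx σ τ ρ (finProdFinEquiv (t, k)) j : ℚ) *
      n ((finProdFinEquiv (m := 3) (n := 6)).symm j).1.succ
        ((finProdFinEquiv (m := 3) (n := 6)).symm j).2 =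
    ∑ w, (coef t w : ℚ) * pr (n w.succ) (PR (sA t) k) (PR (sB t) (sI σ τ ρ t k)) := by
  rw [← (finProdFinEquiv (m := 3) (n := 6)).sum_comp, Fintype.sum_prod_type]
  refine Finset.sum_congr rfl fun w _ => ?_
  have h := sum_plu (n w.succ) (PZ (sA t) k) (PZ (sB t) (sI σ τ ρ t k))
  have h' : pr (n w.succ) (PR (sA t) k) (PR (sB t) (sI σ τ ρ t k)) =
    ∑ c, ((plu (PZ (sA t) k) (PZ (sB t) (sI σ τ ρ t k)) c : ℤ) : ℚ) * n w.succ c := h.symm
  rw [h', Finset.mul_sum]
  refine Finset.sum_congr rfl fun c _ => ?_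
  simp only [Mx, Equiv.symm_apply_apply, line]
  push_cast
  ring

theorem main (h : ∀ a b c : Fin 6, elim 10007 18 (resid 10007 (Mx (pm a) (pm b) (pm c))) = true) :
    S_NUM := by
  have : Fact (Nat.Prime 10007) := ⟨by norm_num⟩
  refine ⟨PR, ?_⟩
  intro σ τ ρ hσ hτ hρ n h0 h1 h2 h3 h4 h5 h6
  obtain ⟨a, rfl⟩ := pm_surj σ hσ
  obtain ⟨b, rfl⟩ := pm_surj τ hτ
  obtain ⟨c, rfl⟩ := pm_surj ρ hρ
  have key := injective_of_elim 10007 (Mx (pm a) (pm b) (pm c)) (h a b c)
    (fun j => n ((finProdFinEquiv (m := 3) (n := 6)).symm j).1.succ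
        ((finProdFinEquiv (m := 3) (n := 6)).symm j).2) ?_
  · funext w i
    refine Fin.cases ?_ (fun w => ?_) w
    · rw [h0]
      rfl
    · have := congrFun key (finProdFinEquiv (w, i))
      simpa using this
  · intro i
    obtain ⟨⟨t, k⟩, rfl⟩ := (finProdFinEquiv (m := 6) (n := 3)).surjective i
    rw [row]
    rw [Fin.sum_univ_three]
    fin_cases t
    · have := h1 k
      simp [coef, sA, sB, sI]
      exact this
    · have := h2 k
      simp [coef, sA, sB, sI]
      exact this
    · have := h3 k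
      simp [coef, sA, sB, sI]
      exact this
    · have := h4 k
      simp [coef, sA, sB, sI]
      simp only [pr, Pi.sub_apply] at this ⊢
      linear_combination this
    · have := h5 k
      simp [coef, sA, sB, sI]
      simp only [pr, Pi.sub_apply] at this ⊢
      linear_combination this
    · have := h6 k
      simp [coef, sA, sB, sI]
      simp only [pr, Pi.sub_apply] at this ⊢
      linear_combination this

theorem num : S_NUM := by
  refine main fun a => ?_
  fin_cases a
  · exact chk0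
  · exact chk1
  · exact chk2
  · exact chk3
  · exact chk4
  · exact chk5

end Pool.Agent.Y530.TB
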