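import Mathlib
import Pool.Agent.Y530.TB.MixMain
import Pool.Agent.Y781.TB.Row
import Pool.Agent.Y287.TB.Six
import Pool.Agent.Y614.TB.Ext
import Pool.Agent.Y530.TB.Num
import Pool.Agent.Y465.TB.Base
import Pool.Agent.Y975.TB.Ctr

/-!
# The theorem on systems of bundles of three bars
-/

set_option autoImplicit false

namespace Pool.Agent.Y530.TB

theorem pq_all : ∀ N, PQ N :=
  all_PQ Pool.Agent.Y781.TB.Row.t (Pool.Agent.Y614.TB.t Pool.Agent.Y287.TB.Six.t)
    (Pool.Agent.Y465.TB.t num) Pool.Agent.Y975.TB.Ctr.t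

end Pool.Agent.Y530.TB
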